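import Mathlib

/-!
# Arithmetic lemmas
-/

set_option autoImplicit false

namespace Pool.Agent.E8helper53.GR

lemma exists_inv {P W : ℕ} (hPW : P.Coprime W) (hW0 : 0 < W) : ∃ e, P * e ≡ 1 [MOD W] := by
  rcases Nat.lt_or_ge 1 W with h | h
  · obtain ⟨e, -, he⟩ := Nat.exists_mul_mod_eq_one_of_coprime hPW h
    refine ⟨e, ?_⟩
    rw [Nat.ModEq, he, Nat.mod_eq_of_lt h]
  · have : W = 1 := by omega
    subst this
    exact ⟨0, Nat.modEq_one⟩

lemma exists_i {P E N₁ : ℕ} (T j κ I0 : ℕ) (hEN : E.Coprime N₁) (hPW : P.Coprime (E * N₁))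
    (hW0 : 0 < E * N₁) : ∃ i, I0 ≤ i ∧ i < I0 + E * N₁ ∧ P * i ≡ 1 [MOD E] ∧ P * i + T * j ≡ κ [MOD N₁] := by
  obtain ⟨e, he⟩ := exists_inv hPW hW0
  obtain ⟨V, hV1, hV2⟩ := Nat.chineseRemainder hEN 1 (κ + (N₁ - 1) * (T * j))
  set W := E * N₁ with hW
  have hN0 : 0 < N₁ := by
    rcases Nat.eq_zero_or_pos N₁ with h | h
    · rw [h, mul_zero] at hW
      omega
    · exact h
  refine ⟨I0 + (e * V + (W - 1) * I0) % W, by omega, ?_, ?_⟩
  · have := Nat.mod_lt (e * V + (W - 1) * I0) hW0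
    omega
  · have h1 : P * (I0 + (e * V + (W - 1) * I0) % W) ≡ V [MOD W] := by
      have h2 : I0 + (e * V + (W - 1) * I0) % W ≡ e * V [MOD W] := by
        have h3 : I0 + (e * V + (W - 1) * I0) % W ≡ I0 + (e * V + (W - 1) * I0) [MOD W] :=
          (Nat.mod_modEq _ _).add_left I0
        refine h3.trans ?_
        have h4 : I0 + (e * V + (W - 1) * I0) = e * V + W * I0 := by
          obtain ⟨z, hz⟩ : ∃ z, W = z + 1 := ⟨W - 1, by omega⟩
          rw [hz, Nat.add_sub_cancel]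
          ring
        rw [h4, Nat.ModEq, Nat.add_mul_mod_self_left]
      calc P * (I0 + (e * V + (W - 1) * I0) % W) ≡ P * (e * V) [MOD W] := h2.mul_left P
        _ = (P * e) * V := by ring
        _ ≡ 1 * V [MOD W] := he.mul_right V
        _ = V := one_mul V
    constructor
    · exact (h1.of_dvd (hW ▸ dvd_mul_right E N₁)).trans hV1
    · have h2 := ((h1.of_dvd (hW ▸ dvd_mul_left N₁ E)).trans hV2).add_right (T * j)
      refine h2.trans ?_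
      have h4 : κ + (N₁ - 1) * (T * j) + T * j = κ + N₁ * (T * j) := by
        obtain ⟨z, hz⟩ : ∃ z, N₁ = z + 1 := ⟨N₁ - 1, by omega⟩
        rw [hz, Nat.add_sub_cancel]
        ring
      rw [h4, Nat.ModEq, Nat.add_mul_mod_self_left]

/-- the `3`-part of `p^(g 2^a) - 1` -/
lemma three_part {Q B u : ℕ} (h3 : Q % 3 = 1) (hq : Q - 1 = 3 ^ B * u) (hu : u.Coprime 3) (a : ℕ) :
    ∃ u', Q ^ 2 ^ a - 1 = 3 ^ B * u' ∧ u'.Coprime 3 := by
  induction a with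
  | zero => exact ⟨u, by simpa using hq, hu⟩
  | succ a ih =>
    obtain ⟨v, hv, hvc⟩ := ih
    refine ⟨v * (Q ^ 2 ^ a + 1), ?_, ?_⟩
    · have h1 : Q ^ 2 ^ (a + 1) = Q ^ 2 ^ a * Q ^ 2 ^ a := by
        rw [← pow_add]
        congr 1
        ring
      have h2 : 1 ≤ Q ^ 2 ^ a := Nat.one_le_pow _ _ (by omega)
      have h4 : Q ^ 2 ^ (a + 1) - 1 = (Q ^ 2 ^ a - 1) * (Q ^ 2 ^ a + 1) := by
        obtain ⟨z, hz⟩ : ∃ z, Q ^ 2 ^ a = z + 1 := ⟨Q ^ 2 ^ a - 1, by omega⟩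
        rw [h1, hz, Nat.add_sub_cancel]
        have : (z + 1) * (z + 1) = z * (z + 1 + 1) + 1 := by ring
        omega
      rw [h4, hv]
      ring
    · refine Nat.Coprime.mul_left hvc ?_
      have h1 : Q ^ 2 ^ a % 3 = 1 := by simp [Nat.pow_mod, h3]
      rw [Nat.coprime_comm, Nat.Prime.coprime_iff_not_dvd Nat.prime_three]
      omega

/-- `2^a` divides `Q^(2^a) - 1` for odd `Q` -/
lemma two_dvd {Q : ℕ} (h2 : Q % 2 = 1) (a : ℕ) : 2 ^ a ∣ Q ^ 2 ^ a - 1 := by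
  induction a with
  | zero => simp
  | succ a ih =>
    have h1 : Q ^ 2 ^ (a + 1) = Q ^ 2 ^ a * Q ^ 2 ^ a := by
      rw [← pow_add]
      congr 1
      ring
    have h3 : 1 ≤ Q ^ 2 ^ a := Nat.one_le_pow _ _ (by omega)
    have h4 : Q ^ 2 ^ (a + 1) - 1 = (Q ^ 2 ^ a - 1) * (Q ^ 2 ^ a + 1) := by
      obtain ⟨z, hz⟩ : ∃ z, Q ^ 2 ^ a = z + 1 := ⟨Q ^ 2 ^ a - 1, by omega⟩
      rw [h1, hz, Nat.add_sub_cancel]
      have : (z + 1) * (z + 1) = z * (z + 1 + 1) + 1 := by ring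
      omega
    have h5 : 2 ∣ Q ^ 2 ^ a + 1 := by
      have h6 : Q ^ 2 ^ a % 2 = 1 := by simp [Nat.pow_mod, h2]
      omega
    rw [h4, pow_succ]
    exact Nat.mul_dvd_mul ih h5

end Pool.Agent.E8helper53.GR
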