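import Pool.Agent.E8helper53.GR.Fin

/-!
# The values for all large conductors
-/

set_option autoImplicit false

namespace Pool.Agent.E8helper53.GR

open Finset Polynomial Pool.Agent.Y18.GX

/-- the starting theorem on one large exponent -/
theorem cone {p : ℕ} (hp : p.Prime) (h5 : 5 ≤ p) {ℓ : ℕ} (hℓ : ℓ = 2 ∨ ℓ = 3) {N₁ g n : ℕ}
    (hN₁ : N₁.Coprime ℓ) (hpN : ¬ p ∣ N₁) (hg : Even g) (hexp : ∀ U : (ZMod N₁)ˣ, U ^ (p ^ g - 1) = 1)
    (hn : ℓ ^ n ∣ p ^ g - 1) (hn' : ¬ ℓ ^ (n + 1) ∣ p ^ g - 1) {K m : ℕ} (hm1 : 1 ≤ m) (hmp : m ≤ p - 1)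
    (hsize : m * N₁ * ℓ ^ (2 * n) ≤ ℓ ^ K) {N : ℕ} (hN : N = N₁ * ℓ ^ K) (ψ : DirichletCharacter ℂ N)
    (hc : ℓ ^ K ∣ ψ.conductor) (hpar : ψ (-1) = (-1) ^ m) :
    Pool.Agent.Y18.GX.IsUnitAt p ((1 - ψ (p : ZMod N) * (p : ℂ) ^ (m - 1)) *
      ((N : ℂ) ^ (m - 1) * ∑ x ∈ range N, ψ (x : ZMod N) *
        (((Polynomial.bernoulli m).eval ((x : ℚ) / (N : ℕ)) : ℚ) : ℂ)) / m) := by
  subst hN
  have hℓp : ℓ.Prime := by rcases hℓ with rfl | rfl <;> norm_num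
  have hN0 : N₁ ≠ 0 := by
    rintro rfl
    exact hpN (dvd_zero _)
  have hpodd : Odd p := hp.odd_of_ne_two (by omega)
  -- `p ^ g` modulo `8` and modulo `3`
  obtain ⟨g', hg'⟩ := hg
  have hpg : p ^ g = (p ^ 2) ^ g' := by
    rw [hg', ← pow_mul]
    congr 1
    ring
  have h8 : p ^ g % 8 = 1 := by
    rw [hpg, Nat.pow_mod]
    have h1 : p ^ 2 % 8 = 1 := by
      have h2 : p % 8 = 1 ∨ p % 8 = 3 ∨ p % 8 = 5 ∨ p % 8 = 7 := by
        obtain ⟨w, hw⟩ := hpodd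
        omega
      rw [Nat.pow_mod]
      rcases h2 with h2 | h2 | h2 | h2 <;> rw [h2]
    rw [h1, one_pow]
    rfl
  have h3 : p ^ g % 3 = 1 := by
    rw [hpg, Nat.pow_mod]
    have h1 : p ^ 2 % 3 = 1 := by
      have h2 : p % 3 = 1 ∨ p % 3 = 2 := by
        have : ¬ 3 ∣ p := fun h => by
          have := (Nat.prime_dvd_prime_iff_eq Nat.prime_three hp).1 h
          omega
        omega
      rw [Nat.pow_mod]
      rcases h2 with h2 | h2 <;> rw [h2]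
    rw [h1, one_pow]
    rfl
  have hA : Adm ℓ (p ^ g) := by
    rcases hℓ with rfl | rfl
    · exact Or.inr ⟨rfl, by omega⟩
    · exact Or.inl ⟨rfl, h3⟩
  have hn1 : 1 ≤ n ∧ 3 ≤ ℓ ^ n := by
    rcases hℓ with rfl | rfl
    · have h4 : ¬ 2 ^ (n + 1) ∣ 8 := fun h => hn' (h.trans (by omega))
      have h6 : 3 ≤ n := by
        by_contra hcon
        exact h4 (pow_dvd_pow 2 (show n + 1 ≤ 3 by omega))
      refine ⟨by omega, ?_⟩
      calc 3 ≤ 2 ^ 3 := by norm_num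
        _ ≤ 2 ^ n := Nat.pow_le_pow_right (by norm_num) h6
    · have h6 : 1 ≤ n := by
        by_contra hcon
        have : n = 0 := by omega
        subst this
        apply hn'
        rw [zero_add, pow_one]
        omega
      refine ⟨h6, ?_⟩
      calc 3 = 3 ^ 1 := by norm_num
        _ ≤ 3 ^ n := Nat.pow_le_pow_right (by norm_num) h6
  obtain ⟨u, hu⟩ := hn
  have huc : u.Coprime ℓ := by
    rw [Nat.coprime_comm, Nat.Prime.coprime_iff_not_dvd hℓp]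
    rintro ⟨w, hw⟩
    apply hn'
    rw [hu, hw, pow_succ, ← mul_assoc]
    exact dvd_mul_right _ _
  have hnK : 2 * n ≤ K := by
    have h6 : ℓ ^ (2 * n) ≤ ℓ ^ K := by
      calc ℓ ^ (2 * n) = 1 * ℓ ^ (2 * n) := (one_mul _).symm
        _ ≤ m * N₁ * ℓ ^ (2 * n) := Nat.mul_le_mul_right _ (Nat.mul_pos (by omega) (Nat.pos_of_ne_zero hN0))
        _ ≤ ℓ ^ K := hsize
    exact (Nat.pow_le_pow_iff_right hℓp.one_lt).1 h6
  have hcop : N₁.Coprime (ℓ ^ K) := hN₁.pow_right K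
  have hpℓ : p ≠ ℓ := by rcases hℓ with rfl | rfl <;> omega
  have hprim := snd_prim hcop hℓp (by omega) hN0 ψ hc
  have hψ₁ : ∀ a, fst hcop ψ a ^ p ^ g = fst hcop ψ a := by
    intro a
    by_cases ha : IsUnit a
    · obtain ⟨U, rfl⟩ := ha
      have h1 : p ^ g = (p ^ g - 1) + 1 := by
        have : 1 ≤ p ^ g := Nat.one_le_pow _ _ hp.pos
        omega
      rw [h1, pow_succ, ← map_pow, ← Units.val_pow_eq_pow_val, hexp, Units.val_one, map_one, one_mul]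
    · rw [MulChar.map_nonunit _ ha, zero_pow]
      exact (Nat.pos_of_ne_zero (pow_ne_zero _ hp.ne_zero)).ne'
  have hN1 : N₁ * ℓ ^ K ≠ 1 := by
    intro h
    have h6 : ℓ ^ K = 1 := Nat.dvd_one.1 (h ▸ dvd_mul_left (ℓ ^ K) N₁)
    have := Nat.one_lt_pow (n := K) (by omega) hℓp.one_lt
    omega
  have hψ1 : ψ ≠ 1 := by
    have : NeZero (N₁ * ℓ ^ K) := ⟨mul_ne_zero hN0 (pow_ne_zero _ hℓp.ne_zero)⟩
    intro h
    rw [h, DirichletCharacter.conductor_one] at hc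
    have := Nat.dvd_one.1 hc
    exact (Nat.one_lt_pow (by omega) hℓp.one_lt).ne' this
  have hsum : ∑ a ∈ range (N₁ * ℓ ^ K), fst hcop ψ (a : ZMod N₁) * snd hcop ψ (a : ZMod (ℓ ^ K)) = 0 := by
    rw [← sum_char (mul_ne_zero hN0 (pow_ne_zero _ hℓp.ne_zero)) ψ hψ1]
    exact Finset.sum_congr rfl fun a _ => (dec_nat hcop ψ a).symm
  have key := unit_main hp (fst hcop ψ) (snd hcop ψ) (by omega) hA hn1.1 hnK hn1.2 hu huc hψ₁ hprim hN₁ hpN hpℓ
    (by rw [← dec_neg, hpar]) hm1 (by omega) hsize hsum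
  simp only [← dec_nat] at key
  exact key


end Pool.Agent.E8helper53.GR
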