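import Pool.Agent.E8helper53.GR.Poly
import Pool.Agent.E8helper53.GR.Arith

/-!
# Nonvanishing of the sums modulo `p` if both exponents are large
-/

set_option autoImplicit false

namespace Pool.Agent.E8helper53.GR

open Finset Polynomial Pool.Agent.Y18.GX

section
variable {k : Type*} [Field k] {p : ℕ} [Fact p.Prime] [CharP k p]

theorem core_mix {N₁ a A b B g m u₂ u₃ : ℕ} (hp5 : 5 ≤ p) (hg : Even g)
    (ψ₁ : MulChar (ZMod N₁) k) (ψ₂ : MulChar (ZMod (2 ^ a)) k) (ψ₃ : MulChar (ZMod (3 ^ b)) k)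
    (χ : MulChar (ZMod (N₁ * 2 ^ a)) k)
    (hχ : ∀ x : ℕ, χ (x : ZMod (N₁ * 2 ^ a)) = ψ₁ (x : ZMod N₁) * ψ₂ (x : ZMod (2 ^ a)))
    (hA1 : 1 ≤ A) (hB1 : 1 ≤ B) (hAa : 2 * A + 2 ≤ a) (hBb : 2 * B ≤ b)
    (hq2 : p ^ g - 1 = 2 ^ A * u₂) (hu2 : u₂.Coprime 2)
    (hq3 : p ^ g - 1 = 3 ^ B * u₃) (hu3 : u₃.Coprime 3)
    (hψ₁ : ∀ x, ψ₁ x ^ p ^ g = ψ₁ x)
    (hprim2 : ψ₂ ((1 + 2 ^ (a - 1) : ℕ) : ZMod (2 ^ a)) ≠ 1)
    (hprim3 : ψ₃ ((1 + 3 ^ (b - 1) : ℕ) : ZMod (3 ^ b)) ≠ 1)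
    (hN2 : N₁.Coprime 2) (hN3 : N₁.Coprime 3) (hN0 : N₁ ≠ 0) (hpN : ¬ p ∣ N₁)
    (F : Polynomial ℤ) (c : k)
    (hF : ∀ x : k, Polynomial.aeval (1 - x) F = (-1) ^ m * Polynomial.aeval x F + c)
    (hpar : χ (-1) * ψ₃ (-1) = (-1) ^ m) (hdeg : F.natDegree ≤ m) (hlead : ((F.coeff m : ℤ) : k) ≠ 0)
    (hm1 : 1 ≤ m) (hmp : m < p) (hsize : 2 * p * N₁ * 3 ^ (2 * B) ≤ 3 ^ b) :
    ∑ x ∈ range (N₁ * 2 ^ a * 3 ^ b), χ (x : ZMod (N₁ * 2 ^ a)) * ψ₃ (x : ZMod (3 ^ b)) *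
      Polynomial.aeval ((x : k) / (N₁ * 2 ^ a * 3 ^ b : ℕ)) F ≠ 0 := by
  intro hS
  have hp := (Fact.out : p.Prime)
  have hpodd : Odd p := hp.odd_of_ne_two (by omega)
  have hnk : ∀ n : ℕ, ¬ p ∣ n → ((n : ℕ) : k) ≠ 0 := fun n hn h =>
    hn ((CharP.cast_eq_zero_iff k p n).1 h)
  have hp2' : ¬ p ∣ 2 := fun h => by
    have := Nat.le_of_dvd (by norm_num) h
    omega
  have hp3' : ¬ p ∣ 3 := fun h => by
    have := Nat.le_of_dvd (by norm_num) h
    omega
  have h2k : ((2 : ℕ) : k) ≠ 0 := hnk 2 hp2'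
  have h3k : ((3 : ℕ) : k) ≠ 0 := hnk 3 hp3'
  have hNk : ((N₁ : ℕ) : k) ≠ 0 := hnk N₁ hpN
  have hq1 : 1 ≤ p ^ g := Nat.one_le_pow _ _ hp.pos
  -- `p ^ g` modulo `8` and modulo `3`
  obtain ⟨g', hg'⟩ := hg
  have hpg : p ^ g = (p ^ 2) ^ g' := by
    rw [hg', ← pow_mul]
    congr 1
    ring
  have h8 : p ^ g % 8 = 1 := by
    rw [hpg, Nat.pow_mod]
    have h1 : p ^ 2 % 8 = 1 := by
      have h2 : p % 8 = 1 ∨ p % 8 = 3 ∨ p % 8 = 5 ∨ p % 8 = 7 := by
        obtain ⟨w, hw⟩ := hpodd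
        omega
      rw [Nat.pow_mod]
      rcases h2 with h2 | h2 | h2 | h2 <;> rw [h2]
    rw [h1, one_pow]
    rfl
  have h3 : p ^ g % 3 = 1 := by
    rw [hpg, Nat.pow_mod]
    have h1 : p ^ 2 % 3 = 1 := by
      have h2 : p % 3 = 1 ∨ p % 3 = 2 := by
        have : ¬ 3 ∣ p := fun h => by
          have := (Nat.prime_dvd_prime_iff_eq Nat.prime_three hp).1 h
          omega
        omega
      rw [Nat.pow_mod]
      rcases h2 with h2 | h2 <;> rw [h2]
    rw [h1, one_pow]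
    rfl
  have hA2 : Adm 2 (p ^ g) := Or.inr ⟨rfl, by omega⟩
  have hodd : Even (p ^ g - 1) := by
    rw [hq2]
    exact (Nat.even_pow.2 ⟨even_two, by omega⟩).mul_right _
  -- the larger field
  obtain ⟨u', hu', huc'⟩ := three_part h3 hq3 hu3 a
  have hA3 : Adm 3 (p ^ (g * 2 ^ a)) := Or.inl ⟨rfl, by rw [pow_mul, Nat.pow_mod, h3, one_pow]; rfl⟩
  have hit : ∀ (z : k), z ^ p ^ g = z → ∀ n, z ^ (p ^ g) ^ n = z := by
    intro z hz n
    induction n with
    | zero => simp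
    | succ n ih => rw [pow_succ, pow_mul, ih, hz]
  have hχq : ∀ x, χ x ^ p ^ (g * 2 ^ a) = χ x := by
    intro x
    have : NeZero (N₁ * 2 ^ a) := ⟨mul_ne_zero hN0 (pow_ne_zero _ (by norm_num))⟩
    have hx : ((x.val : ℕ) : ZMod (N₁ * 2 ^ a)) = x := by rw [ZMod.natCast_val, ZMod.cast_id', id_eq]
    rw [← hx, hχ, mul_pow, pow_mul, hit _ (hψ₁ _)]
    congr 1
    by_cases hd : 2 ∣ x.val
    · rw [psi_dvd Nat.prime_two (by omega) ψ₂ hd, zero_pow]
      exact (Nat.pos_of_ne_zero (pow_ne_zero _ (by omega))).ne'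
    · obtain ⟨U, hU⟩ := isUnit_of_not_dvd (K := a) Nat.prime_two hd
      rw [← hU]
      obtain ⟨z, hz⟩ := two_dvd (Q := p ^ g) (by omega) a
      have h4 : (p ^ g) ^ 2 ^ a = 2 ^ a * z + 1 := by
        have : 1 ≤ (p ^ g) ^ 2 ^ a := Nat.one_le_pow _ _ (by omega)
        omega
      have h5 : U ^ 2 ^ a = 1 := by
        have h6 := ZMod.pow_totient U
        rw [Nat.totient_prime_pow Nat.prime_two (by omega)] at h6
        have h7 : 2 ^ a = 2 ^ (a - 1) * (2 - 1) * 2 := by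
          have : 2 ^ a = 2 ^ (a - 1) * 2 := by
            rw [← pow_succ]
            congr 1
            omega
          omega
        have h9 : ∀ n : ℕ, n = 2 ^ (a - 1) * (2 - 1) * 2 → U ^ n = 1 := by
          intro n hn
          rw [hn, pow_mul, h6, one_pow]
        exact h9 _ h7
      rw [h4, pow_succ, pow_mul, ← map_pow, ← Units.val_pow_eq_pow_val, h5, Units.val_one, map_one, one_pow,
        one_mul]
  have hN2a3 : (N₁ * 2 ^ a).Coprime 3 := Nat.Coprime.mul_left hN3 (Nat.Coprime.pow_left _ (by norm_num))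
  have hN2a0 : N₁ * 2 ^ a ≠ 0 := mul_ne_zero hN0 (pow_ne_zero _ (by norm_num))
  have h3B : 3 ≤ 3 ^ B := by
    calc 3 = 3 ^ 1 := by norm_num
      _ ≤ 3 ^ B := Nat.pow_le_pow_right (by norm_num) hB1
  have hcz := class_zero χ ψ₃ (by omega) hA3 hB1 hBb h3B
    (by rw [pow_mul]; exact hu') huc' hχq hprim3 hN2a3 hN2a0
    (by push_cast; exact mul_ne_zero hNk (pow_ne_zero _ (by exact_mod_cast h2k))) h3k F c hF hpar hS
  -- the notation
  set T := 3 ^ (b - B) with hT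
  set ξ := ψ₃ ((1 + T : ℕ) : ZMod (3 ^ b)) with hξ
  set L := N₁ * 2 ^ A * 3 ^ B with hL
  have hξ3 : ξ ^ 3 ^ B = 1 := psi_M_pow ψ₃ hBb
  have hξ0 : ξ ≠ 0 := by
    intro h
    rw [h, zero_pow (pow_ne_zero _ (by norm_num))] at hξ3
    exact zero_ne_one hξ3
  have hξq : ξ ^ p ^ g = ξ := by
    have h4 : p ^ g = 3 ^ B * u₃ + 1 := by omega
    rw [h4, pow_succ, pow_mul, hξ3, one_pow, one_mul]
  have hT0 : 0 < T := Nat.pos_of_ne_zero (pow_ne_zero _ (by norm_num))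
  have hT2 : T.Coprime 2 := Nat.Coprime.pow_left _ (by norm_num)
  have hTE : 3 ^ B ∣ T := pow_dvd_pow _ (by omega)
  set P := 2 ^ (a - A - 1) with hP
  have hMP : 2 ^ (a - A) = 2 * P := by
    rw [hP, ← pow_succ']
    congr 1
    omega
  have hAP : 2 ^ A ∣ P := pow_dvd_pow _ (by omega)
  have hP4 : 2 ^ A * 2 ≤ P := by
    rw [hP, ← pow_succ]
    exact Nat.pow_le_pow_right (by norm_num) (by omega)
  have h2A : 2 ≤ 2 ^ A := by
    calc 2 = 2 ^ 1 := by norm_num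
      _ ≤ 2 ^ A := Nat.pow_le_pow_right (by norm_num) hA1
  have hR : N₁ * 2 ^ a * 3 ^ B = 2 ^ (a - A) * L := by
    have : 2 ^ a = 2 ^ (a - A) * 2 ^ A := by
      rw [← pow_add]
      congr 1
      omega
    rw [hL, this]
    ring
  have hN : N₁ * 2 ^ a * 3 ^ b = T * 2 ^ (a - A) * L := by
    have h4 : 3 ^ b = T * 3 ^ B := by
      rw [hT, ← pow_add]
      congr 1
      omega
    rw [h4]
    linear_combination T * hR
  have hS2 : ∀ b₀ < T, b₀ % 3 ^ B = 1 → ∑ t ∈ range (2 ^ (a - A) * L), ψ₁ ((b₀ + T * t : ℕ) : ZMod N₁) *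
      ψ₂ ((b₀ + T * t : ℕ) : ZMod (2 ^ a)) * ξ ^ t *
      Polynomial.aeval (((b₀ + T * t : ℕ) : k) / (T * 2 ^ (a - A) * L : ℕ)) F = 0 := by
    intro b₀ hb1 hb2
    have h4 := hcz b₀ hb1 hb2
    rw [hR, hN] at h4
    refine Eq.trans (Finset.sum_congr rfl fun t _ => ?_) h4
    rw [hχ]
  set ξ₂ := ψ₂ ((1 + 2 ^ (a - A) : ℕ) : ZMod (2 ^ a)) with hξ₂
  have hξ₂A : ξ₂ ^ 2 ^ A = 1 := psi_M_pow ψ₂ (by omega)
  have hξ₂1 : ξ₂ ≠ 1 := by
    intro h
    apply hprim2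
    rw [← psi_M_pow' ψ₂ (by omega : 2 * A ≤ a) hA1, ← hξ₂, h, one_pow]
  have hξ₂odd : ∀ n : ℕ, n.Coprime 2 → ξ₂ ^ n ≠ 1 := by
    intro n hn h
    apply hξ₂1
    have h9 : orderOf ξ₂ ∣ 1 := by
      rw [← hn.pow_right A]
      exact Nat.dvd_gcd (orderOf_dvd_of_pow_eq_one h) (orderOf_dvd_of_pow_eq_one hξ₂A)
    exact orderOf_eq_one_iff.1 (Nat.dvd_one.1 h9)
  set ζ := ξ₂ ^ T * ξ ^ 2 ^ (a - A) with hζ
  have hζL : ζ ^ L = 1 := by
    have e1 : ξ₂ ^ T = ξ₂ ^ T := rfl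
    rw [hζ, mul_pow, ← pow_mul, ← pow_mul, hL, show T * (N₁ * 2 ^ A * 3 ^ B) = 2 ^ A * (T * N₁ * 3 ^ B) by ring,
      show 2 ^ (a - A) * (N₁ * 2 ^ A * 3 ^ B) = 3 ^ B * (2 ^ (a - A) * N₁ * 2 ^ A) by ring,
      pow_mul ξ₂ (2 ^ A), pow_mul ξ (3 ^ B), hξ₂A, hξ3, one_pow, one_pow, one_mul]
  have hζN : ζ ^ N₁ ≠ 1 := by
    intro h
    have h4 : ζ ^ (N₁ * 3 ^ B) = 1 := by rw [pow_mul, h, one_pow]
    rw [hζ, mul_pow, ← pow_mul, ← pow_mul, show 2 ^ (a - A) * (N₁ * 3 ^ B) = 3 ^ B * (2 ^ (a - A) * N₁) by ring,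
      pow_mul ξ (3 ^ B), hξ3, one_pow, mul_one] at h4
    exact hξ₂odd _ (Nat.Coprime.mul_left hT2 (Nat.Coprime.mul_left hN2 (Nat.Coprime.pow_left _ (by norm_num)))) h4
  have hLk : ((L : ℕ) : k) ≠ 0 := by
    rw [hL]
    push_cast
    exact mul_ne_zero (mul_ne_zero hNk (pow_ne_zero _ (by exact_mod_cast h2k)))
      (pow_ne_zero _ (by exact_mod_cast h3k))
  have hMk : ((T * 2 ^ (a - A) : ℕ) : k) ≠ 0 := by
    rw [hT]
    push_cast
    exact mul_ne_zero (pow_ne_zero _ (by exact_mod_cast h3k)) (pow_ne_zero _ (by exact_mod_cast h2k))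
  have hN₁L : N₁ ∣ L := ⟨2 ^ A * 3 ^ B, by rw [hL]; ring⟩
  -- the residue class of `j`
  obtain ⟨j, hj1, hj2⟩ := Nat.exists_mul_mod_eq_one_of_coprime (n := T) (k := 2 ^ A)
    (Nat.Coprime.pow_right _ hT2) (by omega)
  have hjodd : ¬ 2 ∣ j := by
    rintro ⟨z, hz⟩
    have h4 : 2 ∣ T * j % 2 ^ A := (Nat.dvd_mod_iff (dvd_pow_self 2 (by omega))).2 ⟨T * z, by rw [hz]; ring⟩
    rw [hj2] at h4
    omega
  set W := 3 ^ B * N₁ with hW
  have hWpos : 0 < W := Nat.mul_pos (Nat.pos_of_ne_zero (pow_ne_zero _ (by norm_num))) (Nat.pos_of_ne_zero hN0)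
  have hPW : P.Coprime W := by
    rw [hP]
    apply Nat.Coprime.pow_left
    rw [hW]
    exact Nat.Coprime.mul_right (Nat.Coprime.pow_right _ (by norm_num)) hN2.symm
  have hEN : (3 ^ B).Coprime N₁ := (hN3.pow_right B).symm
  have hTW : 2 * p * W ≤ T := by
    have h4 : 2 * p * W * 3 ^ B ≤ T * 3 ^ B := by
      have e1 : 2 * p * W * 3 ^ B = 2 * p * N₁ * 3 ^ (2 * B) := by rw [hW, two_mul B, pow_add]; ring
      have e2 : T * 3 ^ B = 3 ^ b := by
        rw [hT, ← pow_add]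
        congr 1
        omega
      rw [e1, e2]
      exact hsize
    exact Nat.le_of_mul_le_mul_right h4 (Nat.pos_of_ne_zero (pow_ne_zero _ (by norm_num)))
  have hTodd : T % 2 = 1 := by
    have h4 : ¬ 2 ∣ T := by
      rw [← Nat.Prime.coprime_iff_not_dvd Nat.prime_two]
      exact hT2.symm
    omega
  obtain ⟨I0, hI0⟩ : ∃ I0, 2 * I0 = T + 1 := ⟨(T + 1) / 2, by omega⟩
  have hD : ∀ κ : ℕ, ∑ t ∈ range L, ψ₁ ((κ + T * 2 ^ (a - A) * t : ℕ) : ZMod N₁) * ζ ^ t * (t : k) = 0 := by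
    intro κ
    obtain ⟨i, hi1, hi2, hi3, hi4⟩ := exists_i (P := P) T j κ I0 hEN hPW hWpos
    have hPT : T * (2 * j) ≤ P * T := by
      rw [mul_comm P T]
      exact Nat.mul_le_mul_left _ (by omega)
    have hle : ∀ r, T * j ≤ P * (i + W * r) := by
      intro r
      have h4 : P * (T + 1) ≤ 2 * (P * i) := by
        rw [← hI0]
        have := Nat.mul_le_mul_left P hi1
        linarith
      have h5 : P * i ≤ P * (i + W * r) := Nat.mul_le_mul_left _ (by omega)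
      nlinarith
    refine D_zero (p := p) (m := m) ψ₁ hN₁L hζL hζN hLk hMk F hdeg hlead hm1 hmp κ
      (fun r => P * (i + W * r) - T * j + T * (2 * j)) ?_ ?_ ?_
    · intro r _
      have h4 : P * (i + W * r) - T * j + T * (2 * j) = P * i + T * j + N₁ * (P * 3 ^ B * r) := by
        have := hle r
        have h5 : P * (i + W * r) = P * i + N₁ * (P * 3 ^ B * r) := by rw [hW]; ring
        rw [h5] at this ⊢
        have h6 : T * (2 * j) = T * j + T * j := by ring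
        omega
      show P * (i + W * r) - T * j + T * (2 * j) ≡ κ [MOD N₁]
      rw [h4, Nat.ModEq, Nat.add_mul_mod_self_left]
      exact hi4
    · intro r hr r' hr' hrr
      have h4 : ∀ r, P * (i + W * r) - T * j + T * (2 * j) = P * i + T * j + P * W * r := by
        intro r
        have := hle r
        have h5 : P * (i + W * r) = P * i + P * W * r := by ring
        rw [h5] at this ⊢
        have h6 : T * (2 * j) = T * j + T * j := by ring
        omega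
      simp only [h4] at hrr
      push_cast at hrr
      have hPWk : (P : k) * (W : k) ≠ 0 := by
        rw [hP, hW]
        push_cast
        exact mul_ne_zero (pow_ne_zero _ (by exact_mod_cast h2k))
          (mul_ne_zero (pow_ne_zero _ (by exact_mod_cast h3k)) hNk)
      have h5 : (r : k) = (r' : k) := mul_left_cancel₀ hPWk (by linear_combination hrr)
      rw [CharP.cast_eq_iff_mod_eq k p, Nat.mod_eq_of_lt (by omega), Nat.mod_eq_of_lt (by omega)] at h5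
      exact h5
    · intro r hr
      have hw : P * (i + W * r) - T * j + T * j = P * (i + W * r) := Nat.sub_add_cancel (hle r)
      have huw : P * (i + W * r) - T * j + T * (2 * j) = P * (i + W * r) + T * j := by
        have h6 : T * (2 * j) = T * j + T * j := by ring
        omega
      refine vanish (u₂ := u₂) ψ₁ ψ₂ hA2 hodd hA1 (by omega) hq2 hu2 hψ₁ hprim2 h2k hξ0 hξq F hT2 hT0 ?_ hMP hAP hTE hS2
        (i := i + W * r) (δ := p * W) hjodd hw ?_ ?_ ?_ ?_ ?_ ?_ ?_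
      · rw [hMP]
        omega
      · intro h
        rcases (Nat.prime_two.dvd_mul).1 h with h | h
        · obtain ⟨w, hw⟩ := hpodd
          omega
        · rw [hW] at h
          rcases (Nat.prime_two.dvd_mul).1 h with h | h
          · have := Nat.prime_two.dvd_of_dvd_pow h
            omega
          · exact (Nat.Prime.coprime_iff_not_dvd Nat.prime_two).1 hN2.symm h
      · exact ⟨p * 3 ^ B, by rw [hW]; ring⟩
      · exact dvd_mul_right _ _
      · exact ⟨p * N₁, by rw [hW]; ring⟩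
      · rw [huw]
        obtain ⟨z, hz⟩ := hAP
        rw [hz, mul_assoc, Nat.add_comm, Nat.add_mul_mod_self_left]
        exact hj2
      · rw [huw]
        obtain ⟨z, hz⟩ := hTE
        have e1 : P * (i + W * r) + T * j = P * i + 3 ^ B * (P * N₁ * r + z * j) := by
          rw [hW, hz]
          ring
        rw [e1, Nat.add_mul_mod_self_left]
        rw [Nat.ModEq, Nat.mod_eq_of_lt (show 1 < 3 ^ B by omega)] at hi3
        exact hi3
      · rw [huw, hMP]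
        have hmr : r + 1 ≤ m := hr
        have e1 : 2 * (i + W * r + p * W) + 1 ≤ 3 * T := by
          have e2 : W * r + W ≤ W * p - W := by
            have : W * (r + 1 + 1) ≤ W * p := Nat.mul_le_mul_left _ (by omega)
            have e4 : W * (r + 1 + 1) = W * r + W + W := by ring
            omega
          have e3 : 2 * p * W = 2 * (W * p) := by ring
          have e5 : p * W = W * p := mul_comm _ _
          omega
        have e6 : 2 * (P * (i + W * r) + T * j + P * (p * W)) + P ≤ P * (4 * T) := by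
          have e7 : P * (2 * (i + W * r + p * W) + 1) ≤ P * (3 * T) := Nat.mul_le_mul_left _ e1
          nlinarith
        have hPpos : 0 < P := by omega
        nlinarith
  exact D_contra ψ₁ hN₁L hζL hζN hLk (hD 1) (hD (1 + T * 2 ^ (a - A)))

end

end Pool.Agent.E8helper53.GR
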