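import Pool.Agent.E8helper53.GR.Red

/-!
# Decomposition of characters over a field, and characters which do not factor through `N / ℓ`
-/

set_option autoImplicit false

namespace Pool.Agent.E8helper53.GR

open Finset Polynomial Pool.Agent.Y18.GX

section
variable {k : Type*} [Field k] {N₁ Q : ℕ} (h : N₁.Coprime Q) (ψ : MulChar (ZMod (N₁ * Q)) k)

noncomputable def cfst : MulChar (ZMod N₁) k where
  toFun x := ψ ((ZMod.chineseRemainder h).symm (x, 1))
  map_one' := by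
    have : ((1 : ZMod N₁), (1 : ZMod Q)) = 1 := rfl
    rw [this, map_one, map_one]
  map_mul' x y := by
    have : ((x * y : ZMod N₁), (1 : ZMod Q)) = (x, 1) * (y, 1) := by simp
    rw [this, map_mul, map_mul]
  map_nonunit' x hx := by
    apply ψ.map_nonunit
    intro h1
    apply hx
    have h2 := h1.map (ZMod.chineseRemainder h)
    rw [RingEquiv.apply_symm_apply, Prod.isUnit_iff] at h2
    exact h2.1

noncomputable def csnd : MulChar (ZMod Q) k where
  toFun x := ψ ((ZMod.chineseRemainder h).symm (1, x))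
  map_one' := by
    have : ((1 : ZMod N₁), (1 : ZMod Q)) = 1 := rfl
    rw [this, map_one, map_one]
  map_mul' x y := by
    have : ((1 : ZMod N₁), (x * y : ZMod Q)) = (1, x) * (1, y) := by simp
    rw [this, map_mul, map_mul]
  map_nonunit' x hx := by
    apply ψ.map_nonunit
    intro h1
    apply hx
    have h2 := h1.map (ZMod.chineseRemainder h)
    rw [RingEquiv.apply_symm_apply, Prod.isUnit_iff] at h2
    exact h2.2

lemma cdec_mul (x : ZMod (N₁ * Q)) : ψ x = cfst h ψ ((ZMod.chineseRemainder h) x).1 *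
    csnd h ψ ((ZMod.chineseRemainder h) x).2 := by
  have h1 : cfst h ψ ((ZMod.chineseRemainder h) x).1 * csnd h ψ ((ZMod.chineseRemainder h) x).2 =
      ψ ((ZMod.chineseRemainder h).symm (((ZMod.chineseRemainder h) x).1, 1)) *
      ψ ((ZMod.chineseRemainder h).symm (1, ((ZMod.chineseRemainder h) x).2)) := rfl
  rw [h1, ← map_mul, ← map_mul]
  simp

lemma cdec_nat (a : ℕ) : ψ (a : ZMod (N₁ * Q)) = cfst h ψ (a : ZMod N₁) * csnd h ψ (a : ZMod Q) := by
  rw [cdec_mul h ψ, map_natCast]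
  rfl

lemma cdec_neg : ψ (-1) = cfst h ψ (-1) * csnd h ψ (-1) := by
  rw [cdec_mul h ψ, map_neg, map_one]
  rfl

end

lemma one_add_div_pow {N ℓ : ℕ} (hd : ℓ ^ 2 ∣ N) (t : ℕ) :
    ((1 + N / ℓ * t : ℕ) : ZMod N) = ((1 + N / ℓ : ℕ) : ZMod N) ^ t := by
  have hsq : (((N / ℓ : ℕ)) : ZMod N) ^ 2 = 0 := by
    have h1 : (((N / ℓ : ℕ)) : ZMod N) ^ 2 = (((N / ℓ) ^ 2 : ℕ) : ZMod N) := by push_cast; rfl
    rw [h1, ZMod.natCast_eq_zero_iff]
    obtain ⟨c, hc⟩ := hd
    rcases Nat.eq_zero_or_pos ℓ with h0 | h0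
    · subst h0
      rw [hc]
      simp
    · have h2 : N / ℓ = ℓ * c := by
        rw [hc, pow_two, mul_assoc, Nat.mul_div_cancel_left _ h0]
      rw [h2, hc]
      exact ⟨c, by ring⟩
  have h := one_add_pow_of_sq (((N / ℓ : ℕ)) : ZMod N) hsq t
  push_cast at h ⊢
  rw [h]
  ring

/-- characters with `ψ(1 + N/ℓ) = 1` factor through `N/ℓ` -/
lemma cond_dvd {N ℓ : ℕ} (hℓ : ℓ.Prime) (hN : N ≠ 0) (hd : ℓ ^ 2 ∣ N) (ψ : DirichletCharacter ℂ N)
    (h1 : ψ ((1 + N / ℓ : ℕ) : ZMod N) = 1) : ψ.conductor ∣ N / ℓ := by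
  have : NeZero N := ⟨hN⟩
  have hℓN : ℓ ∣ N := (dvd_pow_self ℓ (by norm_num)).trans hd
  have hd' : N / ℓ ∣ N := Nat.div_dvd_of_dvd hℓN
  have h2 : ψ.FactorsThrough (N / ℓ) := by
    rw [DirichletCharacter.factorsThrough_iff_ker_unitsMap hd']
    intro U hU
    rw [MonoidHom.mem_ker] at hU ⊢
    have h3 : ((U : ZMod N).cast : ZMod (N / ℓ)) = 1 := by
      have := congrArg Units.val hU
      simpa [ZMod.unitsMap] using this
    set a := (U : ZMod N).val with ha
    have haU : ((a : ℕ) : ZMod N) = U := by rw [ha, ZMod.natCast_val, ZMod.cast_id', id_eq]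
    have h4 : a ≡ 1 [MOD N / ℓ] := by
      rw [← ZMod.natCast_eq_natCast_iff, Nat.cast_one, ← h3, ha, ZMod.natCast_val]
    have ha0 : a ≠ 0 := by
      intro h0
      rw [h0] at h4
      have h7 := (Nat.modEq_iff_dvd' (Nat.zero_le 1)).1 h4
      have h8 : N / ℓ = 1 := Nat.dvd_one.1 h7
      have h9 : ℓ ∣ N / ℓ := by
        obtain ⟨c, hc⟩ := hd
        refine ⟨c, ?_⟩
        rw [hc, pow_two, mul_assoc, Nat.mul_div_cancel_left _ hℓ.pos]
      rw [h8] at h9
      exact hℓ.one_lt.ne' (Nat.dvd_one.1 h9)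
    obtain ⟨y, hy⟩ := (Nat.modEq_iff_dvd' (Nat.pos_of_ne_zero ha0)).1 h4.symm
    have h7 : a = 1 + N / ℓ * y := by omega
    have h9 : ψ (U : ZMod N) = 1 := by
      rw [← haU, h7, one_add_div_pow hd, map_pow, h1, one_pow]
    apply Units.ext
    rw [MulChar.coe_toUnitHom, h9, Units.val_one]
  exact DirichletCharacter.conductor_dvd_of_mem_conductorSet (χ := ψ) (d := N / ℓ) h2

end Pool.Agent.E8helper53.GR
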