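import Pool.Agent.E8helper53.GR.Dec

/-!
# The values for large exponents of both primes
-/

set_option autoImplicit false

namespace Pool.Agent.E8helper53.GR

open Finset Polynomial Pool.Agent.Y18.GX

theorem part_mix {p : ℕ} (hp : p.Prime) (h5 : 5 ≤ p) {N₁ a A b B g m u₂ u₃ : ℕ} (hg : Even g)
    (hA1 : 1 ≤ A) (hB1 : 1 ≤ B) (hAa : 2 * A + 2 ≤ a)
    (hq2 : p ^ g - 1 = 2 ^ A * u₂) (hu2 : u₂.Coprime 2)
    (hq3 : p ^ g - 1 = 3 ^ B * u₃) (hu3 : u₃.Coprime 3) (hexp : ∀ U : (ZMod N₁)ˣ, U ^ (p ^ g - 1) = 1)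
    (hN2 : N₁.Coprime 2) (hN3 : N₁.Coprime 3) (hpN : ¬ p ∣ N₁) (hm1 : 1 ≤ m) (hmp : m < p)
    (hsize : 2 * p * N₁ * 3 ^ (2 * B) ≤ 3 ^ b)
    {N : ℕ} (hN : N = N₁ * 2 ^ a * 3 ^ b)
    (ψ : DirichletCharacter ℂ N) (hc2 : 2 ^ a ∣ ψ.conductor) (hc3 : 3 ^ b ∣ ψ.conductor)
    (hpar : ψ (-1) = (-1) ^ m) :
    Pool.Agent.Y18.GX.IsUnitAt p ((1 - ψ (p : ZMod N) * (p : ℂ) ^ (m - 1)) *
      ((N : ℂ) ^ (m - 1) * ∑ x ∈ range N, ψ (x : ZMod N) *
        (((Polynomial.bernoulli m).eval ((x : ℚ) / (N : ℕ)) : ℚ) : ℂ)) / m) := by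
  have : Fact p.Prime := ⟨hp⟩
  have hN0 : N₁ ≠ 0 := by
    rintro rfl
    exact hpN (dvd_zero _)
  have hb : 2 * B < b := by
    by_contra hcon
    have h1 : 3 ^ b ≤ 3 ^ (2 * B) := Nat.pow_le_pow_right (by norm_num) (by omega)
    have h2 : 0 < 3 ^ (2 * B) := Nat.pos_of_ne_zero (pow_ne_zero _ (by norm_num))
    have h3 : 2 ≤ 2 * p * N₁ := by
      have : 1 ≤ p * N₁ := Nat.mul_pos hp.pos (Nat.pos_of_ne_zero hN0)
      calc 2 = 2 * 1 := by norm_num
        _ ≤ 2 * (p * N₁) := Nat.mul_le_mul_left _ this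
        _ = 2 * p * N₁ := by ring
    have h4 : 2 * 3 ^ (2 * B) ≤ 2 * p * N₁ * 3 ^ (2 * B) := Nat.mul_le_mul_right _ h3
    omega
  have hp2' : ¬ p ∣ 2 := fun h => by
    have := Nat.le_of_dvd (by norm_num) h
    omega
  have hp3' : ¬ p ∣ 3 := fun h => by
    have := Nat.le_of_dvd (by norm_num) h
    omega
  have hN0' : N ≠ 0 := by
    rw [hN]
    exact mul_ne_zero (mul_ne_zero hN0 (pow_ne_zero _ (by norm_num))) (pow_ne_zero _ (by norm_num))
  have hpN' : ¬ p ∣ N := by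
    intro h
    rw [hN] at h
    rcases (hp.dvd_mul).1 h with h | h
    · rcases (hp.dvd_mul).1 h with h | h
      · exact hpN h
      · exact hp2' (hp.dvd_of_dvd_pow h)
    · exact hp3' (hp.dvd_of_dvd_pow h)
  have h2a : 2 ^ a = 2 * 2 ^ (a - 1) := by
    rw [← pow_succ']
    congr 1
    omega
  have h3b : 3 ^ b = 3 * 3 ^ (b - 1) := by
    rw [← pow_succ']
    congr 1
    omega
  have hN2' : N / 2 = N₁ * 2 ^ (a - 1) * 3 ^ b := by
    rw [hN, h2a, show N₁ * (2 * 2 ^ (a - 1)) * 3 ^ b = 2 * (N₁ * 2 ^ (a - 1) * 3 ^ b) by ring,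
      Nat.mul_div_cancel_left _ (by norm_num)]
  have hN3' : N / 3 = N₁ * 2 ^ a * 3 ^ (b - 1) := by
    rw [hN, h3b, show N₁ * 2 ^ a * (3 * 3 ^ (b - 1)) = 3 * (N₁ * 2 ^ a * 3 ^ (b - 1)) by ring,
      Nat.mul_div_cancel_left _ (by norm_num)]
  have hd2 : 2 ^ 2 ∣ N := by
    rw [hN]
    exact ((pow_dvd_pow 2 (by omega)).mul_left N₁).mul_right _
  have hd3 : 3 ^ 2 ∣ N := by
    rw [hN]
    exact (pow_dvd_pow 3 (by omega)).mul_left _
  have hz2 : ψ ((1 + N / 2 : ℕ) : ZMod N) ≠ 1 := by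
    intro h
    have h1 := hc2.trans (cond_dvd Nat.prime_two hN0' hd2 ψ h)
    rw [hN2'] at h1
    have h2 : 2 ^ a ∣ 2 ^ (a - 1) := by
      have e1 : (2 ^ a).Coprime (3 ^ b) := Nat.Coprime.pow _ _ (by norm_num)
      have e2 : (2 ^ a).Coprime N₁ := (hN2.pow_right a).symm
      exact e2.dvd_of_dvd_mul_left (e1.dvd_of_dvd_mul_right h1)
    have := (Nat.pow_dvd_pow_iff_le_right (by norm_num : 1 < 2)).1 h2
    omega
  have hz3 : ψ ((1 + N / 3 : ℕ) : ZMod N) ≠ 1 := by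
    intro h
    have h1 := hc3.trans (cond_dvd Nat.prime_three hN0' hd3 ψ h)
    rw [hN3'] at h1
    have h2 : 3 ^ b ∣ 3 ^ (b - 1) := by
      have e1 : (3 ^ b).Coprime (2 ^ a) := Nat.Coprime.pow _ _ (by norm_num)
      have e2 : (3 ^ b).Coprime N₁ := (hN3.pow_right b).symm
      exact (Nat.Coprime.mul_right e2 e1).dvd_of_dvd_mul_left h1
    have := (Nat.pow_dvd_pow_iff_le_right (by norm_num : 1 < 3)).1 h2
    omega
  have hψ1 : ψ ≠ 1 := by
    rintro rfl
    apply hz2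
    apply MulChar.one_apply
    have h1 := one_add_div_pow hd2 2
    rw [Nat.div_mul_cancel ((dvd_pow_self 2 (by norm_num)).trans hd2)] at h1
    push_cast at h1
    rw [ZMod.natCast_self, add_zero] at h1
    rw [← isUnit_pow_iff (n := 2) (by norm_num)]
    push_cast
    rw [← h1]
    exact isUnit_one
  refine unit_gen1 hp ψ hpN' hpar hm1 hmp {((1 + N / 2 : ℕ) : ZMod N), ((1 + N / 3 : ℕ) : ZMod N)} ?_ ?_ ?_
    (sum_char hN0' ψ hψ1)
  · intro z hz
    rcases hz with hz | hz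
    · refine ⟨2, hp2', ?_⟩
      rw [hz, ← one_add_div_pow hd2, Nat.div_mul_cancel ((dvd_pow_self 2 (by norm_num)).trans hd2)]
      push_cast
      rw [ZMod.natCast_self, add_zero]
    · refine ⟨3, hp3', ?_⟩
      rw [Set.mem_singleton_iff] at hz
      rw [hz, ← one_add_div_pow hd3, Nat.div_mul_cancel ((dvd_pow_self 3 (by norm_num)).trans hd3)]
      push_cast
      rw [ZMod.natCast_self, add_zero]
  · intro z hz
    rcases hz with hz | hz
    · rw [hz]
      exact hz2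
    · rw [Set.mem_singleton_iff] at hz
      rw [hz]
      exact hz3
  · intro k _ _ χ hχZ hχpar
    have hχ2 := hχZ _ (Set.mem_insert _ _)
    have hχ3 := hχZ _ (Set.mem_insert_of_mem _ (Set.mem_singleton _))
    clear hχZ hz2 hz3 hψ1 hpar hc2 hc3 ψ
    subst hN
    have hcop1 : (N₁ * 2 ^ a).Coprime (3 ^ b) :=
      Nat.Coprime.pow_right _ (Nat.Coprime.mul_left hN3 (Nat.Coprime.pow_left _ (by norm_num)))
    have hcop2 : N₁.Coprime (2 ^ a) := hN2.pow_right a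
    set χ' := cfst hcop1 χ with hχ'
    set ψ₃ := csnd hcop1 χ with hψ₃
    set ψ₁ := cfst hcop2 χ' with hψ₁
    set ψ₂ := csnd hcop2 χ' with hψ₂
    have hdec1 : ∀ x : ℕ, χ (x : ZMod (N₁ * 2 ^ a * 3 ^ b)) = χ' (x : ZMod (N₁ * 2 ^ a)) * ψ₃ (x : ZMod (3 ^ b)) :=
      fun x => cdec_nat hcop1 χ x
    have hdec2 : ∀ x : ℕ, χ' (x : ZMod (N₁ * 2 ^ a)) = ψ₁ (x : ZMod N₁) * ψ₂ (x : ZMod (2 ^ a)) :=
      fun x => cdec_nat hcop2 χ' x
    have hprim2 : ψ₂ ((1 + 2 ^ (a - 1) : ℕ) : ZMod (2 ^ a)) ≠ 1 := by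
      intro h
      apply hχ2
      rw [hdec1, hdec2]
      have e1 : ((1 + N₁ * 2 ^ a * 3 ^ b / 2 : ℕ) : ZMod N₁) = 1 := by
        rw [hN2']
        push_cast
        simp
      have e2 : ψ₂ ((1 + N₁ * 2 ^ a * 3 ^ b / 2 : ℕ) : ZMod (2 ^ a)) = 1 := by
        have h1 : 1 + N₁ * 2 ^ a * 3 ^ b / 2 = 1 + 2 ^ (a - 1) * (N₁ * 3 ^ b) := by rw [hN2']; ring
        rw [h1, psi_one_add (n := 1) ψ₂ (by omega), h, one_pow]
      have e3 : ((1 + N₁ * 2 ^ a * 3 ^ b / 2 : ℕ) : ZMod (3 ^ b)) = 1 := by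
        rw [hN2']
        have := ZMod.natCast_self (3 ^ b)
        rw [Nat.cast_add, Nat.cast_mul, this]
        simp
      rw [e1, e2, e3, map_one, map_one, mul_one, mul_one]
    have hprim3 : ψ₃ ((1 + 3 ^ (b - 1) : ℕ) : ZMod (3 ^ b)) ≠ 1 := by
      intro h
      apply hχ3
      rw [hdec1]
      have e1 : ((1 + N₁ * 2 ^ a * 3 ^ b / 3 : ℕ) : ZMod (N₁ * 2 ^ a)) = 1 := by
        rw [hN3']
        have := ZMod.natCast_self (N₁ * 2 ^ a)
        rw [Nat.cast_add, Nat.cast_mul, this]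
        simp
      have e2 : ψ₃ ((1 + N₁ * 2 ^ a * 3 ^ b / 3 : ℕ) : ZMod (3 ^ b)) = 1 := by
        have h1 : 1 + N₁ * 2 ^ a * 3 ^ b / 3 = 1 + 3 ^ (b - 1) * (N₁ * 2 ^ a) := by rw [hN3']; ring
        rw [h1, psi_one_add (n := 1) ψ₃ (by omega), h, one_pow]
      rw [e1, e2, map_one, mul_one]
    have hpar' : χ' (-1) * ψ₃ (-1) = (-1) ^ m := by
      rw [← hχpar]
      exact (cdec_neg hcop1 χ).symm
    have hψ₁q : ∀ x, ψ₁ x ^ p ^ g = ψ₁ x := by
      intro x
      by_cases hx : IsUnit x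
      · obtain ⟨U, rfl⟩ := hx
        have h1 : p ^ g = (p ^ g - 1) + 1 := by
          have : 1 ≤ p ^ g := Nat.one_le_pow _ _ hp.pos
          omega
        rw [h1, pow_succ, ← map_pow, ← Units.val_pow_eq_pow_val, hexp, Units.val_one, map_one, one_mul]
      · rw [MulChar.map_nonunit _ hx, zero_pow]
        exact (Nat.pos_of_ne_zero (pow_ne_zero _ hp.ne_zero)).ne'
    have hpf : ¬ p ∣ m.factorial := fun h => by
      have := (hp.dvd_factorial).1 h
      omega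
    constructor
    · have key := core_mix (p := p) h5 hg ψ₁ ψ₂ ψ₃ χ' hdec2 hA1 hB1 hAa (by omega) hq2 hu2 hq3 hu3 hψ₁q hprim2
        hprim3 hN2 hN3 hN0 hpN (FF m) _ (fun x => FF_aeval_refl m x) hpar' (FF_natDegree m)
        (by
          rw [FF_coeff m hm1]
          have : ((m.factorial : ℕ) : k) ≠ 0 := fun h => hpf ((CharP.cast_eq_zero_iff k p _).1 h)
          push_cast
          exact this) hm1 hmp hsize
      simp only [hdec1]
      exact key
    · -- the Euler factor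
      intro _ h1
      rw [hdec1, hdec2] at h1
      have hpodd : Odd p := hp.odd_of_ne_two (by omega)
      have h3 : p ^ g % 3 = 1 := by
        obtain ⟨g', hg'⟩ := hg
        have hpg : p ^ g = (p ^ 2) ^ g' := by
          rw [hg', ← pow_mul]
          congr 1
          ring
        rw [hpg, Nat.pow_mod]
        have h1 : p ^ 2 % 3 = 1 := by
          have h2 : p % 3 = 1 ∨ p % 3 = 2 := by
            have : ¬ 3 ∣ p := fun h => by
              have := (Nat.prime_dvd_prime_iff_eq Nat.prime_three hp).1 h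
              omega
            omega
          rw [Nat.pow_mod]
          rcases h2 with h2 | h2 <;> rw [h2]
        rw [h1, one_pow]
        rfl
      obtain ⟨u', hu', huc'⟩ := three_part h3 hq3 hu3 a
      have hA3 : Adm 3 ((p ^ g) ^ 2 ^ a) := Or.inl ⟨rfl, by rw [Nat.pow_mod, h3, one_pow]; rfl⟩
      have hq1 : 1 ≤ (p ^ g) ^ 2 ^ a := Nat.one_le_pow _ _ (Nat.one_le_pow _ _ hp.pos)
      have hx1 : ψ₁ (p : ZMod N₁) ^ ((p ^ g) ^ 2 ^ a - 1) = 1 := by
        have h0 : ψ₁ (p : ZMod N₁) ≠ 0 := by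
          intro h
          rw [h, zero_mul, zero_mul] at h1
          exact zero_ne_one h1
        have hit : ∀ n, ψ₁ (p : ZMod N₁) ^ (p ^ g) ^ n = ψ₁ (p : ZMod N₁) := by
          intro n
          induction n with
          | zero => simp
          | succ n ih => rw [pow_succ, pow_mul, ih, hψ₁q]
        apply mul_right_cancel₀ h0
        rw [← pow_succ, Nat.sub_add_cancel hq1, hit, one_mul]
      have hp2n : ¬ 2 ∣ p := by
        intro h
        obtain ⟨w, hw⟩ := hpodd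
        omega
      have hx2 : ψ₂ (p : ZMod (2 ^ a)) ^ ((p ^ g) ^ 2 ^ a - 1) = 1 := by
        obtain ⟨z, hz⟩ := two_dvd (Q := p ^ g) (by
          have := (hpodd.pow (n := g))
          obtain ⟨w, hw⟩ := this
          omega) a
        obtain ⟨U, hU⟩ := isUnit_of_not_dvd (K := a) Nat.prime_two hp2n
        rw [← hU, hz, pow_mul, ← map_pow, ← Units.val_pow_eq_pow_val]
        have h6 := ZMod.pow_totient U
        rw [Nat.totient_prime_pow Nat.prime_two (by omega)] at h6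
        have h9 : ∀ n : ℕ, n = 2 ^ (a - 1) * (2 - 1) * 2 → U ^ n = 1 := by
          intro n hn
          rw [hn, pow_mul, h6, one_pow]
        rw [h9 (2 ^ a) (by omega), Units.val_one, map_one, one_pow]
      have hx3 : ψ₃ (p : ZMod (3 ^ b)) ^ ((p ^ g) ^ 2 ^ a - 1) = 1 := by
        have h2 := congrArg (fun z => z ^ ((p ^ g) ^ 2 ^ a - 1)) h1
        simp only [mul_pow, hx1, hx2, one_mul, one_pow] at h2
        exact h2
      have hcop : p.Coprime 3 := (Nat.coprime_primes hp Nat.prime_three).2 (by omega)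
      have hker := kernel ψ₃ hA3 (by omega : 2 * B ≤ b) hB1 hprim3 hu' huc' hcop hx3
      have hdvd : 3 ^ (b - B) ∣ p ^ 2 - 1 := by
        have e1 : p ^ 2 - 1 = (p - 1) * (p + 1) := by
          obtain ⟨z, rfl⟩ : ∃ z, p = z + 1 := ⟨p - 1, by omega⟩
          rw [Nat.add_sub_cancel]
          have : (z + 1) ^ 2 = z * (z + 1 + 1) + 1 := by ring
          omega
        rw [e1]
        rcases hker with h2 | h2
        · exact h2.mul_right _
        · exact h2.mul_left _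
      have hdvd2 : 3 ^ (b - B) ∣ p ^ g - 1 := by
        obtain ⟨g', hg'⟩ := hg
        have hpg : p ^ g = (p ^ 2) ^ g' := by
          rw [hg', ← pow_mul]
          congr 1
          ring
        rw [hpg]
        refine hdvd.trans ?_
        have := Nat.sub_dvd_pow_sub_pow (p ^ 2) 1 g'
        rwa [one_pow] at this
      have h4 : 3 ^ (B + 1) ∣ 3 ^ B * u₃ := by
        rw [← hq3]
        exact (pow_dvd_pow _ (by omega)).trans hdvd2
      rw [pow_succ] at h4
      have h6 : 3 ∣ u₃ := Nat.dvd_of_mul_dvd_mul_left (Nat.pos_of_ne_zero (pow_ne_zero _ (by norm_num))) h4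
      have h7 := Nat.dvd_gcd h6 (dvd_refl 3)
      rw [hu3] at h7
      omega

end Pool.Agent.E8helper53.GR
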