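import Pool.Agent.E8helper53.GR.Main

/-!
# All characters whose conductor has a large part composed of `2` and `3`: the theorem
-/

set_option autoImplicit false

namespace Pool.Agent.E8helper53.GR

open Finset Polynomial Pool.Agent.Y18.GX

lemma ineq1 {p N₁ r s t X Y m : ℕ} (h5 : 5 ≤ p) (hpr : p ≤ r) (hN : 1 ≤ N₁) (hm : m ≤ p)
    (hs : s ≤ 2 * (r + 1)) (hst : s * t ≤ r * r) (hX : X ≤ 2 * (s * s)) (hY : Y < m * (N₁ * X) * (t * t))
    (h : N₁ ^ 3 * (p ^ 4 * r ^ 6) ≤ X * Y) : False := by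
  have h5r : 5 ≤ r := h5.trans hpr
  have e1 : X * Y ≤ X * (p * (N₁ * X) * (t * t)) := by
    refine Nat.mul_le_mul_left _ (hY.le.trans ?_)
    gcongr
  have e2 : X * (p * (N₁ * X) * (t * t)) ≤ (2 * (s * s)) * (p * (N₁ * (2 * (s * s))) * (t * t)) := by
    gcongr
  have e3 : (2 * (s * s)) * (p * (N₁ * (2 * (s * s))) * (t * t)) = 4 * p * N₁ * ((s * t) * (s * t)) * (s * s) := by
    ring
  have e4 : 4 * p * N₁ * ((s * t) * (s * t)) * (s * s) ≤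
      4 * p * N₁ * ((r * r) * (r * r)) * ((2 * (r + 1)) * (2 * (r + 1))) := by
    gcongr
  have e5 : 4 * ((2 * (r + 1)) * (2 * (r + 1))) ≤ 24 * (r * r) := by nlinarith
  have e6 : 4 * p * N₁ * ((r * r) * (r * r)) * ((2 * (r + 1)) * (2 * (r + 1))) ≤
      24 * (p * N₁ * r ^ 6) := by
    calc 4 * p * N₁ * ((r * r) * (r * r)) * ((2 * (r + 1)) * (2 * (r + 1))) =
        p * N₁ * ((r * r) * (r * r)) * (4 * ((2 * (r + 1)) * (2 * (r + 1)))) := by ring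
      _ ≤ p * N₁ * ((r * r) * (r * r)) * (24 * (r * r)) := by gcongr
      _ = 24 * (p * N₁ * r ^ 6) := by ring
  have e7 : 25 * (p * N₁ * r ^ 6) ≤ N₁ ^ 3 * (p ^ 4 * r ^ 6) := by
    have h1 : 25 ≤ N₁ * N₁ * (p * p * p) := by
      calc 25 ≤ 5 * 5 * 5 := by norm_num
        _ ≤ p * p * p := by gcongr
        _ = 1 * 1 * (p * p * p) := by ring
        _ ≤ N₁ * N₁ * (p * p * p) := by gcongr
    calc 25 * (p * N₁ * r ^ 6) ≤ (N₁ * N₁ * (p * p * p)) * (p * N₁ * r ^ 6) := by gcongr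
      _ = N₁ ^ 3 * (p ^ 4 * r ^ 6) := by ring
  have hpos : 0 < p * N₁ * r ^ 6 := by positivity
  omega

lemma ineq2 {p N₁ r s t X Y m : ℕ} (h5 : 5 ≤ p) (hpr : p ≤ r) (hN : 1 ≤ N₁) (hm : m < p)
    (ht : 2 * t ≤ r + 1) (hst : s * t ≤ r * r) (hY : Y < 2 * p * N₁ * (t * t)) (hX : X < m * (N₁ * Y) * (s * s))
    (h : N₁ ^ 3 * (p ^ 4 * r ^ 6) ≤ X * Y) : False := by
  have h5r : 5 ≤ r := h5.trans hpr
  have e1 : X * Y ≤ (p * (N₁ * Y) * (s * s)) * Y := by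
    refine Nat.mul_le_mul_right _ (hX.le.trans ?_)
    gcongr
  have e2 : (p * (N₁ * Y) * (s * s)) * Y ≤
      (p * (N₁ * (2 * p * N₁ * (t * t))) * (s * s)) * (2 * p * N₁ * (t * t)) := by
    gcongr
  have e3 : (p * (N₁ * (2 * p * N₁ * (t * t))) * (s * s)) * (2 * p * N₁ * (t * t)) =
      p ^ 3 * N₁ ^ 3 * ((s * t) * (s * t)) * ((2 * t) * (2 * t)) := by
    ring
  have e4 : p ^ 3 * N₁ ^ 3 * ((s * t) * (s * t)) * ((2 * t) * (2 * t)) ≤
      p ^ 3 * N₁ ^ 3 * ((r * r) * (r * r)) * ((r + 1) * (r + 1)) := by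
    gcongr
  have e5 : (r + 1) * (r + 1) ≤ 2 * (r * r) := by nlinarith
  have e6 : p ^ 3 * N₁ ^ 3 * ((r * r) * (r * r)) * ((r + 1) * (r + 1)) ≤ 2 * (p ^ 3 * N₁ ^ 3 * r ^ 6) := by
    calc p ^ 3 * N₁ ^ 3 * ((r * r) * (r * r)) * ((r + 1) * (r + 1)) ≤
        p ^ 3 * N₁ ^ 3 * ((r * r) * (r * r)) * (2 * (r * r)) := by gcongr
      _ = 2 * (p ^ 3 * N₁ ^ 3 * r ^ 6) := by ring
  have e7 : 5 * (p ^ 3 * N₁ ^ 3 * r ^ 6) ≤ N₁ ^ 3 * (p ^ 4 * r ^ 6) := by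
    calc 5 * (p ^ 3 * N₁ ^ 3 * r ^ 6) ≤ p * (p ^ 3 * N₁ ^ 3 * r ^ 6) := by gcongr
      _ = N₁ ^ 3 * (p ^ 4 * r ^ 6) := by ring
  have hpos : 0 < p ^ 3 * N₁ ^ 3 * r ^ 6 := by positivity
  omega

/-- the theorem -/
theorem large {p : ℕ} (hp : p.Prime) (h5 : 5 ≤ p) {N₁ g a b m : ℕ} (hN2 : N₁.Coprime 2) (hN3 : N₁.Coprime 3)
    (hpN : ¬ p ∣ N₁) (hg : Even g) (hg0 : g ≠ 0) (hexp : ∀ U : (ZMod N₁)ˣ, U ^ (p ^ g - 1) = 1)
    (hm1 : 1 ≤ m) (hmp : m ≤ p - 1) (hlarge : N₁ ^ 3 * p ^ (3 * g + 4) ≤ 2 ^ a * 3 ^ b)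
    {N : ℕ} (hN : N = N₁ * 2 ^ a * 3 ^ b)
    (ψ : DirichletCharacter ℂ N) (hc2 : 2 ^ a ∣ ψ.conductor) (hc3 : 3 ^ b ∣ ψ.conductor)
    (hpar : ψ (-1) = (-1) ^ m) :
    Pool.Agent.Y18.GX.IsUnitAt p ((1 - ψ (p : ZMod N) * (p : ℂ) ^ (m - 1)) *
      ((N : ℂ) ^ (m - 1) * ∑ x ∈ range N, ψ (x : ZMod N) *
        (((Polynomial.bernoulli m).eval ((x : ℚ) / (N : ℕ)) : ℚ) : ℂ)) / m) := by
  have hN0 : N₁ ≠ 0 := by
    rintro rfl
    exact hpN (dvd_zero _)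
  have hp2' : ¬ p ∣ 2 := fun h => by
    have := Nat.le_of_dvd (by norm_num) h
    omega
  have hp3' : ¬ p ∣ 3 := fun h => by
    have := Nat.le_of_dvd (by norm_num) h
    omega
  have hpodd : Odd p := hp.odd_of_ne_two (by omega)
  obtain ⟨e, he⟩ := id hg
  set r := p ^ e with hr
  have hgr : p ^ g = r * r := by rw [he, pow_add]
  have hrp : p ≤ r := by
    calc p = p ^ 1 := (pow_one p).symm
      _ ≤ p ^ e := Nat.pow_le_pow_right hp.pos (by omega)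
  have hrodd : r % 2 = 1 := by
    obtain ⟨w, hw⟩ := hpodd.pow (n := e)
    omega
  have hQ2 : p ^ g % 2 = 1 := by
    rw [hgr, Nat.mul_mod, hrodd]
  have hQ3 : p ^ g % 3 = 1 := by
    have h2 : r % 3 = 1 ∨ r % 3 = 2 := by
      have : ¬ 3 ∣ r := fun h => by
        have := (Nat.prime_dvd_prime_iff_eq Nat.prime_three hp).1 (Nat.prime_three.dvd_of_dvd_pow h)
        omega
      omega
    rw [hgr, Nat.mul_mod]
    rcases h2 with h2 | h2 <;> rw [h2]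
  have hQ0 : p ^ g - 1 ≠ 0 := by
    have : 5 * 5 ≤ r * r := Nat.mul_le_mul (h5.trans hrp) (h5.trans hrp)
    omega
  obtain ⟨A, u₂, hu2, hq2⟩ := Nat.exists_eq_pow_mul_and_not_dvd hQ0 2 (by norm_num)
  obtain ⟨B, u₃, hu3, hq3⟩ := Nat.exists_eq_pow_mul_and_not_dvd hQ0 3 (by norm_num)
  have hu2' : u₂.Coprime 2 := ((Nat.Prime.coprime_iff_not_dvd Nat.prime_two).2 hu2).symm
  have hu3' : u₃.Coprime 3 := ((Nat.Prime.coprime_iff_not_dvd Nat.prime_three).2 hu3).symm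
  have hA1 : 1 ≤ A := by
    by_contra hcon
    have : A = 0 := by omega
    subst this
    rw [pow_zero, one_mul] at hq2
    apply hu2
    rw [← hq2]
    omega
  have hB1 : 1 ≤ B := by
    by_contra hcon
    have : B = 0 := by omega
    subst this
    rw [pow_zero, one_mul] at hq3
    apply hu3
    rw [← hq3]
    omega
  have hs : 2 ^ A ≤ 2 * (r + 1) := two_le hrodd (h5.trans hrp) (by rw [← hgr]; exact hq2)
  have ht : 2 * 3 ^ B ≤ r + 1 := three_le hrodd (h5.trans hrp) (by rw [← hgr]; exact hq3)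
  have hst : 2 ^ A * 3 ^ B ≤ r * r := by
    have h1 : 2 ^ A * 3 ^ B ∣ p ^ g - 1 :=
      Nat.Coprime.mul_dvd_of_dvd_of_dvd (Nat.Coprime.pow _ _ (by norm_num)) ⟨u₂, hq2⟩ ⟨u₃, hq3⟩
    have := Nat.le_of_dvd (by omega) h1
    omega
  have hlarge' : N₁ ^ 3 * (p ^ 4 * r ^ 6) ≤ 2 ^ a * 3 ^ b := by
    refine le_trans (le_of_eq ?_) hlarge
    rw [hr, ← pow_mul, ← pow_add]
    congr 2
    omega
  rcases Nat.lt_or_ge a (2 * A + 2) with hcase | hcase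
  · -- small `a`
    obtain ⟨u', hu', huc'⟩ := three_part hQ3 hq3 hu3' a
    have hcop : N₁.Coprime (2 ^ a) := hN2.pow_right a
    refine cone hp h5 (Or.inr rfl) (N₁ := N₁ * 2 ^ a) (g := g * 2 ^ a) (n := B) (K := b) ?_ ?_ (hg.mul_right _)
      ?_ ?_ ?_ hm1 hmp ?_ hN ψ hc3 hpar
    · exact Nat.Coprime.mul_left hN3 (Nat.Coprime.pow_left _ (by norm_num))
    · intro h
      rcases (hp.dvd_mul).1 h with h | h
      · exact hpN h
      · exact hp2' (hp.dvd_of_dvd_pow h)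
    · rw [pow_mul]
      have h1 := two_dvd' hQ2 a
      refine exp_mul hcop (fun U => ?_) (fun U => exp_two ((dvd_mul_left _ _).trans h1) U)
      obtain ⟨c, hc⟩ := (dvd_mul_right _ _).trans h1
      rw [hc, pow_mul, hexp, one_pow]
    · rw [pow_mul, hu']
      exact dvd_mul_right _ _
    · rw [pow_mul, hu', pow_succ]
      intro h
      have h1 := Nat.dvd_of_mul_dvd_mul_left (Nat.pos_of_ne_zero (pow_ne_zero _ (by norm_num))) h
      exact (Nat.Prime.coprime_iff_not_dvd Nat.prime_three).1 huc'.symm h1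
    · by_contra hcon
      push Not at hcon
      refine ineq1 (m := m) (s := 2 ^ A) (t := 3 ^ B) (X := 2 ^ a) (Y := 3 ^ b) h5 hrp
        (Nat.pos_of_ne_zero hN0) (by omega) hs hst ?_ ?_ hlarge'
      · calc 2 ^ a ≤ 2 ^ (1 + (A + A)) := Nat.pow_le_pow_right (by norm_num) (by omega)
          _ = 2 * (2 ^ A * 2 ^ A) := by rw [pow_add, pow_add, pow_one]
      · rwa [two_mul, pow_add] at hcon
  · rcases Nat.lt_or_ge (3 ^ b) (2 * p * N₁ * 3 ^ (2 * B)) with hcase2 | hcase2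
    · -- small `b`
      obtain ⟨u', hu', huc'⟩ := two_part hQ2 hq2 hu2' b
      have hcop : N₁.Coprime (3 ^ b) := hN3.pow_right b
      refine cone hp h5 (Or.inl rfl) (N₁ := N₁ * 3 ^ b) (g := g * 3 ^ b) (n := A) (K := a) ?_ ?_ (hg.mul_right _)
        ?_ ?_ ?_ hm1 hmp ?_ (by rw [hN]; ring) ψ hc2 hpar
      · exact Nat.Coprime.mul_left hN2 (Nat.Coprime.pow_left _ (by norm_num))
      · intro h
        rcases (hp.dvd_mul).1 h with h | h
        · exact hpN h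
        · exact hp3' (hp.dvd_of_dvd_pow h)
      · rw [pow_mul]
        have h1 := three_dvd' hQ3 b
        have h2 : 2 ∣ p ^ g - 1 := (dvd_pow_self 2 (by omega)).trans ⟨u₂, hq2⟩
        refine exp_mul hcop (fun U => ?_) (fun U => exp_three ((Nat.mul_dvd_mul_right h2 _).trans h1) U)
        obtain ⟨c, hc⟩ := (dvd_mul_right _ _).trans h1
        rw [hc, pow_mul, hexp, one_pow]
      · rw [pow_mul, hu']
        exact dvd_mul_right _ _
      · rw [pow_mul, hu', pow_succ]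
        intro h
        have h1 := Nat.dvd_of_mul_dvd_mul_left (Nat.pos_of_ne_zero (pow_ne_zero _ (by norm_num))) h
        exact (Nat.Prime.coprime_iff_not_dvd Nat.prime_two).1 huc'.symm h1
      · by_contra hcon
        push Not at hcon
        refine ineq2 (m := m) (s := 2 ^ A) (t := 3 ^ B) (X := 2 ^ a) (Y := 3 ^ b) h5 hrp
          (Nat.pos_of_ne_zero hN0) (by omega) ht hst ?_ ?_ hlarge'
        · rwa [two_mul B, pow_add] at hcase2
        · rwa [two_mul, pow_add] at hcon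
    · exact part_mix hp h5 hg hA1 hB1 hcase hq2 hu2' hq3 hu3' hexp hN2 hN3 hpN hm1 (by omega) hcase2 hN ψ hc2
        hc3 hpar

end Pool.Agent.E8helper53.GR
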