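import Pool.Agent.E8helper53.GR.Cone

/-!
# All characters whose conductor has a large part composed of `2` and `3`
-/

set_option autoImplicit false

namespace Pool.Agent.E8helper53.GR

open Finset Polynomial Pool.Agent.Y18.GX

lemma two_dvd' {Q : ℕ} (h2 : Q % 2 = 1) (a : ℕ) : (Q - 1) * 2 ^ a ∣ Q ^ 2 ^ a - 1 := by
  induction a with
  | zero => simp
  | succ a ih =>
    have h1 : Q ^ 2 ^ (a + 1) = Q ^ 2 ^ a * Q ^ 2 ^ a := by
      rw [← pow_add]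
      congr 1
      ring
    have h3 : 1 ≤ Q ^ 2 ^ a := Nat.one_le_pow _ _ (by omega)
    have h4 : Q ^ 2 ^ (a + 1) - 1 = (Q ^ 2 ^ a - 1) * (Q ^ 2 ^ a + 1) := by
      obtain ⟨z, hz⟩ : ∃ z, Q ^ 2 ^ a = z + 1 := ⟨Q ^ 2 ^ a - 1, by omega⟩
      rw [h1, hz, Nat.add_sub_cancel]
      have : (z + 1) * (z + 1) = z * (z + 1 + 1) + 1 := by ring
      omega
    have h5 : 2 ∣ Q ^ 2 ^ a + 1 := by
      have h6 : Q ^ 2 ^ a % 2 = 1 := by simp [Nat.pow_mod, h2]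
      omega
    rw [h4, pow_succ, ← mul_assoc]
    exact Nat.mul_dvd_mul ih h5

lemma cube_sub {x : ℕ} (hx : 1 ≤ x) : x * x * x - 1 = (x - 1) * (x * x + x + 1) := by
  obtain ⟨z, rfl⟩ : ∃ z, x = z + 1 := ⟨x - 1, by omega⟩
  rw [Nat.add_sub_cancel]
  have : (z + 1) * (z + 1) * (z + 1) = z * ((z + 1) * (z + 1) + (z + 1) + 1) + 1 := by ring
  omega

lemma three_dvd' {Q : ℕ} (h3 : Q % 3 = 1) (b : ℕ) : (Q - 1) * 3 ^ b ∣ Q ^ 3 ^ b - 1 := by
  induction b with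
  | zero => simp
  | succ b ih =>
    have h1 : Q ^ 3 ^ (b + 1) = Q ^ 3 ^ b * Q ^ 3 ^ b * Q ^ 3 ^ b := by
      rw [← pow_add, ← pow_add]
      congr 1
      ring
    have h2 : 1 ≤ Q ^ 3 ^ b := Nat.one_le_pow _ _ (by omega)
    have h6 : Q ^ 3 ^ b % 3 = 1 := by simp [Nat.pow_mod, h3]
    have h5 : 3 ∣ Q ^ 3 ^ b * Q ^ 3 ^ b + Q ^ 3 ^ b + 1 := by
      obtain ⟨z, hz⟩ : ∃ z, Q ^ 3 ^ b = 3 * z + 1 := ⟨Q ^ 3 ^ b / 3, by omega⟩
      rw [hz]
      exact ⟨3 * z * z + 3 * z + 1, by ring⟩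
    rw [h1, cube_sub h2, pow_succ, ← mul_assoc]
    exact Nat.mul_dvd_mul ih h5

lemma two_part {Q A u : ℕ} (h2 : Q % 2 = 1) (hq : Q - 1 = 2 ^ A * u) (hu : u.Coprime 2) (b : ℕ) :
    ∃ u', Q ^ 3 ^ b - 1 = 2 ^ A * u' ∧ u'.Coprime 2 := by
  induction b with
  | zero => exact ⟨u, by simpa using hq, hu⟩
  | succ b ih =>
    obtain ⟨v, hv, hvc⟩ := ih
    have h1 : Q ^ 3 ^ (b + 1) = Q ^ 3 ^ b * Q ^ 3 ^ b * Q ^ 3 ^ b := by
      rw [← pow_add, ← pow_add]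
      congr 1
      ring
    have h3 : 1 ≤ Q ^ 3 ^ b := Nat.one_le_pow _ _ (by omega)
    refine ⟨v * (Q ^ 3 ^ b * Q ^ 3 ^ b + Q ^ 3 ^ b + 1), ?_, ?_⟩
    · rw [h1, cube_sub h3, hv]
      ring
    · refine Nat.Coprime.mul_left hvc ?_
      have h6 : Q ^ 3 ^ b % 2 = 1 := by simp [Nat.pow_mod, h2]
      rw [Nat.coprime_comm, Nat.Prime.coprime_iff_not_dvd Nat.prime_two]
      obtain ⟨z, hz⟩ : ∃ z, Q ^ 3 ^ b = 2 * z + 1 := ⟨Q ^ 3 ^ b / 2, by omega⟩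
      rw [hz]
      have : (2 * z + 1) * (2 * z + 1) + (2 * z + 1) + 1 = 2 * (2 * z * z + 3 * z + 1) + 1 := by ring
      omega

lemma exp_mul {N₁ Q e : ℕ} (h : N₁.Coprime Q) (h1 : ∀ U : (ZMod N₁)ˣ, U ^ e = 1)
    (h2 : ∀ U : (ZMod Q)ˣ, U ^ e = 1) : ∀ U : (ZMod (N₁ * Q))ˣ, U ^ e = 1 := by
  intro U
  apply Units.ext
  apply (ZMod.chineseRemainder h).injective
  rw [Units.val_pow_eq_pow_val, map_pow, Units.val_one, map_one]
  have e1 := congrArg Units.val (h1 (Units.map ((RingHom.fst (ZMod N₁) (ZMod Q)).comp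
    (ZMod.chineseRemainder h : ZMod (N₁ * Q) →+* ZMod N₁ × ZMod Q)).toMonoidHom U))
  have e2 := congrArg Units.val (h2 (Units.map ((RingHom.snd (ZMod N₁) (ZMod Q)).comp
    (ZMod.chineseRemainder h : ZMod (N₁ * Q) →+* ZMod N₁ × ZMod Q)).toMonoidHom U))
  rw [Units.val_pow_eq_pow_val, Units.val_one] at e1 e2
  exact Prod.ext e1 e2

lemma exp_two {e a : ℕ} (h : 2 ^ a ∣ e) (U : (ZMod (2 ^ a))ˣ) : U ^ e = 1 := by
  rcases Nat.eq_zero_or_pos a with h0 | h0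
  · subst h0
    apply Units.ext
    exact Subsingleton.elim (α := ZMod 1) _ _
  · have h1 : (2 ^ a).totient ∣ e := by
      rw [Nat.totient_prime_pow Nat.prime_two h0]
      refine dvd_trans ?_ h
      rw [show 2 - 1 = 1 from rfl, mul_one]
      exact pow_dvd_pow _ (by omega)
    obtain ⟨c, hc⟩ := h1
    rw [hc, pow_mul, ZMod.pow_totient, one_pow]

lemma exp_three {e b : ℕ} (h : 2 * 3 ^ b ∣ e) (U : (ZMod (3 ^ b))ˣ) : U ^ e = 1 := by
  rcases Nat.eq_zero_or_pos b with h0 | h0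
  · subst h0
    apply Units.ext
    exact Subsingleton.elim (α := ZMod 1) _ _
  · have h1 : (3 ^ b).totient ∣ e := by
      rw [Nat.totient_prime_pow Nat.prime_three h0]
      refine dvd_trans ?_ h
      rw [show 3 - 1 = 2 from rfl, mul_comm]
      exact Nat.mul_dvd_mul_left _ (pow_dvd_pow _ (by omega))
    obtain ⟨c, hc⟩ := h1
    rw [hc, pow_mul, ZMod.pow_totient, one_pow]

/-- the parts of `r ^ 2 - 1` -/
lemma two_le {r A u : ℕ} (hr : r % 2 = 1) (hr5 : 5 ≤ r) (h : r * r - 1 = 2 ^ A * u) : 2 ^ A ≤ 2 * (r + 1) := by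
  obtain ⟨y, rfl⟩ : ∃ y, r = 2 * y + 1 := ⟨r / 2, by omega⟩
  have h1 : (2 * y + 1) * (2 * y + 1) - 1 = 4 * (y * (y + 1)) := by
    have : (2 * y + 1) * (2 * y + 1) = 4 * (y * (y + 1)) + 1 := by ring
    omega
  rw [h1] at h
  rcases Nat.lt_or_ge A 2 with hA | hA
  · have : 2 ^ A ≤ 2 ^ 1 := Nat.pow_le_pow_right (by norm_num) (by omega)
    omega
  · obtain ⟨z, rfl⟩ : ∃ z, A = z + 2 := ⟨A - 2, by omega⟩
    have h2 : 2 ^ z ∣ y * (y + 1) := by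
      refine ⟨u, ?_⟩
      have : 4 * (y * (y + 1)) = 4 * (2 ^ z * u) := by rw [h]; ring
      omega
    have h3 : 2 ^ z ≤ y + 1 := by
      rcases Nat.even_or_odd y with hy | hy
      · have h4 : Nat.Coprime (2 ^ z) (y + 1) := by
          apply Nat.Coprime.pow_left
          rw [Nat.Prime.coprime_iff_not_dvd Nat.prime_two]
          obtain ⟨w, hw⟩ := hy
          omega
        have := Nat.le_of_dvd (by omega) (Nat.Coprime.dvd_of_dvd_mul_right h4 h2)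
        omega
      · have h4 : Nat.Coprime (2 ^ z) y := by
          apply Nat.Coprime.pow_left
          rw [Nat.Prime.coprime_iff_not_dvd Nat.prime_two]
          obtain ⟨w, hw⟩ := hy
          omega
        exact Nat.le_of_dvd (by omega) (Nat.Coprime.dvd_of_dvd_mul_left h4 h2)
    rw [pow_add]
    omega

lemma three_le {r B u : ℕ} (hr : r % 2 = 1) (hr5 : 5 ≤ r) (h : r * r - 1 = 3 ^ B * u) : 2 * 3 ^ B ≤ r + 1 := by
  obtain ⟨y, rfl⟩ : ∃ y, r = 2 * y + 1 := ⟨r / 2, by omega⟩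
  have h1 : (2 * y + 1) * (2 * y + 1) - 1 = 4 * (y * (y + 1)) := by
    have : (2 * y + 1) * (2 * y + 1) = 4 * (y * (y + 1)) + 1 := by ring
    omega
  rw [h1] at h
  have h2 : 3 ^ B ∣ y * (y + 1) := by
    have h3 : 3 ^ B ∣ 4 * (y * (y + 1)) := ⟨u, h⟩
    exact (Nat.Coprime.pow_left B (by norm_num : Nat.Coprime 3 4)).dvd_of_dvd_mul_left h3
  have h3 : 3 ^ B ≤ y + 1 := by
    by_cases hy : 3 ∣ y
    · have h4 : Nat.Coprime (3 ^ B) (y + 1) := by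
        apply Nat.Coprime.pow_left
        rw [Nat.Prime.coprime_iff_not_dvd Nat.prime_three]
        omega
      have := Nat.le_of_dvd (by omega) (Nat.Coprime.dvd_of_dvd_mul_right h4 h2)
      omega
    · have h4 : Nat.Coprime (3 ^ B) y := by
        apply Nat.Coprime.pow_left
        rwa [Nat.Prime.coprime_iff_not_dvd Nat.prime_three]
      exact Nat.le_of_dvd (by omega) (Nat.Coprime.dvd_of_dvd_mul_left h4 h2)
  omega

end Pool.Agent.E8helper53.GR
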