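import Pool.Agent.E8helper53.GR.Tr

/-!
# Two-term relations between the classes
-/

set_option autoImplicit false

namespace Pool.Agent.E8helper53.GR

open Finset Pool.Agent.Y18.GX

section
variable {k : Type*} [Field k] {p : ℕ} [Fact p.Prime] [CharP k p]

lemma step2 {N₁ a A g u₂ : ℕ} (ψ₁ : MulChar (ZMod N₁) k) (ψ₂ : MulChar (ZMod (2 ^ a)) k)
    (hA : Adm 2 (p ^ g)) (hodd : Even (p ^ g - 1)) (hA1 : 1 ≤ A) (hAa : 2 * A ≤ a)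
    (hq : p ^ g - 1 = 2 ^ A * u₂) (hu : u₂.Coprime 2)
    (hψ₁ : ∀ x, ψ₁ x ^ p ^ g = ψ₁ x) (hprim : ψ₂ ((1 + 2 ^ (a - 1) : ℕ) : ZMod (2 ^ a)) ≠ 1)
    (h2k : ((2 : ℕ) : k) ≠ 0)
    {ξ : k} (hξ : ξ ^ p ^ g = ξ) (F : Polynomial ℤ) {N T b₀ L : ℕ} (hT : T.Coprime 2)
    (hM4 : 3 ≤ 2 ^ (a - A)) {h : ℕ → k}
    (hh : ∀ t, h t = ψ₁ ((b₀ + T * t : ℕ) : ZMod N₁) * ψ₂ ((b₀ + T * t : ℕ) : ZMod (2 ^ a)) * ξ ^ t *
      Polynomial.aeval (((b₀ + T * t : ℕ) : k) / (N : ℕ)) F)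
    (hS : ∑ t ∈ range (2 ^ (a - A) * L), h t = 0)
    {t₁ t₂ : ℕ} (ht₁ : t₁ < 2 ^ (a - A)) (ht₂ : t₂ < 2 ^ (a - A)) (hu1 : ¬ 2 ∣ b₀ + T * t₁)
    (hw : 2 ^ (a - A) ∣ b₀ + T * t₁ + (b₀ + T * t₂)) :
    ∑ s ∈ range L, h (t₁ + 2 ^ (a - A) * s) + ∑ s ∈ range L, h (t₂ + 2 ^ (a - A) * s) = 0 := by
  have hp := (Fact.out : p.Prime)
  have hq1 : 1 ≤ p ^ g := Nat.one_le_pow _ _ hp.pos
  set M₂ := 2 ^ (a - A) with hM₂
  have hM2dvd : 2 ∣ M₂ := dvd_pow_self 2 (by omega)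
  have hTM : T.Coprime M₂ := Nat.Coprime.pow_right _ hT
  set β := ψ₂ ((b₀ + T * t₁ : ℕ) : ZMod (2 ^ a)) with hβ
  have hβ0 : β ≠ 0 := psi_ne_zero Nat.prime_two ψ₂ hu1
  -- Frobenius
  have hSj : ∀ j, ∑ t ∈ range (M₂ * L), ψ₁ ((b₀ + T * t : ℕ) : ZMod N₁) *
      ψ₂ ((b₀ + T * t : ℕ) : ZMod (2 ^ a)) ^ (p ^ g) ^ j * ξ ^ t *
      Polynomial.aeval (((b₀ + T * t : ℕ) : k) / (N : ℕ)) F = 0 := by
    intro j
    have h1 := congrArg (iterateFrobenius k p (g * j)) hS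
    rw [map_zero, map_sum] at h1
    rw [← h1]
    refine Finset.sum_congr rfl fun t _ => ?_
    rw [hh, iterateFrobenius_def, mul_pow, mul_pow, mul_pow, frob_fix, pow_mul]
    have h2 : ∀ j, ψ₁ ((b₀ + T * t : ℕ) : ZMod N₁) ^ (p ^ g) ^ j = ψ₁ ((b₀ + T * t : ℕ) : ZMod N₁) := by
      intro j
      induction j with
      | zero => simp
      | succ j ih => rw [pow_succ, pow_mul, ih, hψ₁]
    have h3 : ∀ j, ξ ^ (p ^ g) ^ j = ξ := by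
      intro j
      induction j with
      | zero => simp
      | succ j ih => rw [pow_succ, pow_mul, ih, hξ]
    have h4 : (ξ ^ t) ^ (p ^ g) ^ j = ξ ^ t := by
      rw [← pow_mul, mul_comm, pow_mul, h3]
    rw [h2, h4]
  -- the trace
  have htr := fun x => trace_class ψ₂ hA hq1 hodd hA1 hAa hq hu hprim hu1 x
  have hsum : ∑ t ∈ range (M₂ * L), (if (b₀ + T * t ≡ b₀ + T * t₁ [MOD M₂] ∨ M₂ ∣ b₀ + T * t + (b₀ + T * t₁))
      then h t else 0) = 0 := by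
    have h1 : ∑ j ∈ range (2 ^ a), (β⁻¹) ^ (p ^ g) ^ j * ∑ t ∈ range (M₂ * L),
        ψ₁ ((b₀ + T * t : ℕ) : ZMod N₁) *
      ψ₂ ((b₀ + T * t : ℕ) : ZMod (2 ^ a)) ^ (p ^ g) ^ j * ξ ^ t *
      Polynomial.aeval (((b₀ + T * t : ℕ) : k) / (N : ℕ)) F = 0 := by
      simp only [hSj, mul_zero, Finset.sum_const_zero]
    simp only [Finset.mul_sum] at h1
    rw [Finset.sum_comm] at h1
    have h2 : ∀ t ∈ range (M₂ * L), ∑ j ∈ range (2 ^ a), (β⁻¹) ^ (p ^ g) ^ j *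
        (ψ₁ ((b₀ + T * t : ℕ) : ZMod N₁) *
      ψ₂ ((b₀ + T * t : ℕ) : ZMod (2 ^ a)) ^ (p ^ g) ^ j * ξ ^ t *
      Polynomial.aeval (((b₀ + T * t : ℕ) : k) / (N : ℕ)) F) =
        (((2 ^ a : ℕ) : k) * β⁻¹) *
        (if (b₀ + T * t ≡ b₀ + T * t₁ [MOD M₂] ∨ M₂ ∣ b₀ + T * t + (b₀ + T * t₁)) then h t else 0) := by
      intro t _
      have h4 : ∀ j, (β⁻¹) ^ (p ^ g) ^ j * (ψ₁ ((b₀ + T * t : ℕ) : ZMod N₁) *
      ψ₂ ((b₀ + T * t : ℕ) : ZMod (2 ^ a)) ^ (p ^ g) ^ j * ξ ^ t *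
      Polynomial.aeval (((b₀ + T * t : ℕ) : k) / (N : ℕ)) F) =
          (ψ₁ ((b₀ + T * t : ℕ) : ZMod N₁) * ξ ^ t *
            Polynomial.aeval (((b₀ + T * t : ℕ) : k) / (N : ℕ)) F) *
          (ψ₂ ((b₀ + T * t : ℕ) : ZMod (2 ^ a)) * β⁻¹) ^ (p ^ g) ^ j := by
        intro j
        rw [mul_pow]
        ring
      simp only [h4]
      rw [← Finset.mul_sum, htr, hh]
      split_ifs
      · ring
      · ring
    rw [Finset.sum_congr rfl h2, ← Finset.mul_sum] at h1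
    rcases mul_eq_zero.1 h1 with h4 | h4
    · exfalso
      rcases mul_eq_zero.1 h4 with h5 | h5
      · push_cast at h5
        exact pow_ne_zero _ (by exact_mod_cast h2k) h5
      · exact inv_ne_zero hβ0 h5
    · exact h4
  -- the two classes
  have hmod1 : ∀ t, b₀ + T * t ≡ b₀ + T * t₁ [MOD M₂] ↔ t % M₂ = t₁ := by
    intro t
    constructor
    · intro h1
      have h2 : T * t ≡ T * t₁ [MOD M₂] := Nat.ModEq.add_left_cancel' b₀ h1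
      have h3 : t ≡ t₁ [MOD M₂] := Nat.ModEq.cancel_left_of_coprime (by
        rw [Nat.gcd_comm]
        exact hTM) h2
      rw [Nat.ModEq, Nat.mod_eq_of_lt ht₁] at h3
      exact h3
    · intro h1
      have h3 : t ≡ t₁ [MOD M₂] := by
        rw [Nat.ModEq, Nat.mod_eq_of_lt ht₁]
        exact h1
      exact (h3.mul_left T).add_left b₀
  have hmod2 : ∀ t, M₂ ∣ b₀ + T * t + (b₀ + T * t₁) ↔ t % M₂ = t₂ := by
    intro t
    have hw' : b₀ + T * t₁ + (b₀ + T * t₂) ≡ 0 [MOD M₂] := Nat.modEq_zero_iff_dvd.2 hw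
    constructor
    · intro h1
      have h1' : b₀ + T * t + (b₀ + T * t₁) ≡ 0 [MOD M₂] := Nat.modEq_zero_iff_dvd.2 h1
      have h2 : b₀ + T * t + (b₀ + T * t₁) ≡ b₀ + T * t₂ + (b₀ + T * t₁) [MOD M₂] := by
        refine h1'.trans ?_
        rw [add_comm (b₀ + T * t₂)]
        exact hw'.symm
      have h4 := Nat.ModEq.add_left_cancel' b₀ (Nat.ModEq.add_right_cancel' _ h2)
      have h3 : t ≡ t₂ [MOD M₂] := Nat.ModEq.cancel_left_of_coprime (by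
        rw [Nat.gcd_comm]
        exact hTM) h4
      rw [Nat.ModEq, Nat.mod_eq_of_lt ht₂] at h3
      exact h3
    · intro h1
      have h3 : t ≡ t₂ [MOD M₂] := by
        rw [Nat.ModEq, Nat.mod_eq_of_lt ht₂]
        exact h1
      have h4 := (((h3.mul_left T).add_left b₀).add_right (b₀ + T * t₁))
      rw [add_comm (b₀ + T * t₂)] at h4
      exact Nat.modEq_zero_iff_dvd.1 (h4.trans hw')
  have hne : t₁ ≠ t₂ := by
    rintro rfl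
    have h1 : M₂ ∣ 2 * (b₀ + T * t₁) := by
      rw [two_mul]
      exact hw
    have h2 : 2 * 2 ∣ 2 * (b₀ + T * t₁) := by
      refine dvd_trans ?_ h1
      have h3 : 2 ≤ a - A := by
        by_contra hcon
        have h4 : a - A ≤ 1 := by omega
        have h5 : 2 ^ (a - A) ≤ 2 ^ 1 := Nat.pow_le_pow_right (by norm_num) h4
        omega
      exact (pow_dvd_pow 2 h3)
    exact hu1 (Nat.dvd_of_mul_dvd_mul_left (by norm_num) h2)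
  have hsplit : ∑ t ∈ range (M₂ * L), (if t % M₂ = t₁ then h t else 0) +
      ∑ t ∈ range (M₂ * L), (if t % M₂ = t₂ then h t else 0) = 0 := by
    rw [← Finset.sum_add_distrib]
    refine Eq.trans (Finset.sum_congr rfl fun t _ => ?_) hsum
    simp only [hmod1, hmod2]
    by_cases h1 : t % M₂ = t₁ <;> by_cases h2 : t % M₂ = t₂
    · exact absurd (h1.symm.trans h2) hne
    · rw [if_pos h1, if_neg h2, if_pos (Or.inl h1), add_zero]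
    · rw [if_neg h1, if_pos h2, if_pos (Or.inr h2), zero_add]
    · rw [if_neg h1, if_neg h2, if_neg (by tauto), add_zero]
  rw [class_sum M₂ L t₁ ht₁, class_sum M₂ L t₂ ht₂] at hsplit
  exact hsplit

/-- the sum over the class of `u` modulo `M` -/
noncomputable def Phi {N₁ : ℕ} (ψ₁ : MulChar (ZMod N₁) k) (F : Polynomial ℤ) (N M L : ℕ) (ζ : k) (u : ℕ) : k :=
  ∑ s ∈ range L, ψ₁ ((u + M * s : ℕ) : ZMod N₁) * ζ ^ s * Polynomial.aeval (((u + M * s : ℕ) : k) / (N : ℕ)) F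

omit [Fact p.Prime] in
lemma Phi_congr {N₁ : ℕ} (ψ₁ : MulChar (ZMod N₁) k) (F : Polynomial ℤ) (N M L : ℕ) (ζ : k) {u u' : ℕ}
    (h1 : u ≡ u' [MOD N₁]) (h2 : u ≡ u' [MOD p]) : Phi ψ₁ F N M L ζ u = Phi ψ₁ F N M L ζ u' := by
  unfold Phi
  refine Finset.sum_congr rfl fun s _ => ?_
  have e1 : ((u + M * s : ℕ) : ZMod N₁) = ((u' + M * s : ℕ) : ZMod N₁) := by
    rw [ZMod.natCast_eq_natCast_iff]
    exact h1.add_right _
  have e2 : ((u + M * s : ℕ) : k) = ((u' + M * s : ℕ) : k) := by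
    rw [CharP.cast_eq_iff_mod_eq k p]
    exact h2.add_right _
  rw [e1, e2]

/-- the two-term relation -/
lemma relation {N₁ a A g u₂ : ℕ} (ψ₁ : MulChar (ZMod N₁) k) (ψ₂ : MulChar (ZMod (2 ^ a)) k)
    (hA : Adm 2 (p ^ g)) (hodd : Even (p ^ g - 1)) (hA1 : 1 ≤ A) (hAa : 2 * A ≤ a)
    (hq : p ^ g - 1 = 2 ^ A * u₂) (hu : u₂.Coprime 2)
    (hψ₁ : ∀ x, ψ₁ x ^ p ^ g = ψ₁ x) (hprim : ψ₂ ((1 + 2 ^ (a - 1) : ℕ) : ZMod (2 ^ a)) ≠ 1)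
    (h2k : ((2 : ℕ) : k) ≠ 0)
    {ξ : k} (hξ : ξ ^ p ^ g = ξ) (F : Polynomial ℤ) {N T b₀ L : ℕ} (hT : T.Coprime 2)
    (hM4 : 3 ≤ 2 ^ (a - A))
    (hS : ∑ t ∈ range (2 ^ (a - A) * L), ψ₁ ((b₀ + T * t : ℕ) : ZMod N₁) *
      ψ₂ ((b₀ + T * t : ℕ) : ZMod (2 ^ a)) * ξ ^ t *
      Polynomial.aeval (((b₀ + T * t : ℕ) : k) / (N : ℕ)) F = 0)
    {u w t₁ t₂ : ℕ} (hut : u = b₀ + T * t₁) (hwt : w = b₀ + T * t₂)
    (ht₁ : t₁ < 2 ^ (a - A)) (ht₂ : t₂ < 2 ^ (a - A)) (hu1 : u % 2 ^ A = 1) (hw1 : (w + 1) % 2 ^ A = 0)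
    (hw : 2 ^ (a - A) ∣ u + w) :
    ψ₂ (u : ZMod (2 ^ a)) * ξ ^ t₁ * Phi ψ₁ F N (T * 2 ^ (a - A)) L
      (ψ₂ ((1 + 2 ^ (a - A) : ℕ) : ZMod (2 ^ a)) ^ T * ξ ^ 2 ^ (a - A)) u +
    ψ₂ (w : ZMod (2 ^ a)) * ξ ^ t₂ * Phi ψ₁ F N (T * 2 ^ (a - A)) L
      ((ψ₂ ((1 + 2 ^ (a - A) : ℕ) : ZMod (2 ^ a)) ^ (2 ^ A - 1)) ^ T * ξ ^ 2 ^ (a - A)) w = 0 := by
  have hu2 : ¬ 2 ∣ u := by
    intro h
    have h1 : 2 ∣ u % 2 ^ A := (Nat.dvd_mod_iff (dvd_pow_self 2 (by omega))).2 h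
    rw [hu1] at h1
    omega
  have h2A : 2 ≤ 2 ^ A := by
    calc 2 = 2 ^ 1 := by norm_num
      _ ≤ 2 ^ A := Nat.pow_le_pow_right (by norm_num) hA1
  have key := step2 (h := fun t => ψ₁ ((b₀ + T * t : ℕ) : ZMod N₁) *
      ψ₂ ((b₀ + T * t : ℕ) : ZMod (2 ^ a)) * ξ ^ t *
      Polynomial.aeval (((b₀ + T * t : ℕ) : k) / (N : ℕ)) F) ψ₁ ψ₂ hA hodd hA1 hAa hq hu hψ₁ hprim h2k hξ F hT
      hM4 (fun _ => rfl) hS ht₁ ht₂ (by rw [← hut]; exact hu2) (by rw [← hut, ← hwt]; exact hw)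
  rw [← key]
  unfold Phi
  rw [Finset.mul_sum, Finset.mul_sum]
  congr 1
  · refine Finset.sum_congr rfl fun s _ => ?_
    have e1 : b₀ + T * (t₁ + 2 ^ (a - A) * s) = u + T * 2 ^ (a - A) * s := by
      rw [hut]
      ring
    have e2 : u + T * 2 ^ (a - A) * s = u + 2 ^ (a - A) * (T * s) := by ring
    simp only [e1]
    have e3 : ψ₂ ((u + T * 2 ^ (a - A) * s : ℕ) : ZMod (2 ^ a)) =
        ψ₂ (u : ZMod (2 ^ a)) * ψ₂ ((1 + 2 ^ (a - A) : ℕ) : ZMod (2 ^ a)) ^ (T * s) := by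
      rw [e2, psi_b ψ₂ hAa u (T * s) hu1]
    rw [e3, pow_add, mul_pow, ← pow_mul, ← pow_mul]
    ring
  · refine Finset.sum_congr rfl fun s _ => ?_
    have e1 : b₀ + T * (t₂ + 2 ^ (a - A) * s) = w + T * 2 ^ (a - A) * s := by
      rw [hwt]
      ring
    have e2 : w + T * 2 ^ (a - A) * s = w + 2 ^ (a - A) * (T * s) := by ring
    simp only [e1]
    have e3 : ψ₂ ((w + T * 2 ^ (a - A) * s : ℕ) : ZMod (2 ^ a)) =
        ψ₂ (w : ZMod (2 ^ a)) * (ψ₂ ((1 + 2 ^ (a - A) : ℕ) : ZMod (2 ^ a)) ^ (2 ^ A - 1)) ^ (T * s) := by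
      rw [e2, psi_neg Nat.prime_two ψ₂ hA1 hAa h2A hw1 (T * s)]
    rw [e3, pow_add, mul_pow, ← pow_mul, ← pow_mul, ← pow_mul]
    ring

/-- the values at two pairs of classes -/
lemma vanish {N₁ a A g u₂ : ℕ} (ψ₁ : MulChar (ZMod N₁) k) (ψ₂ : MulChar (ZMod (2 ^ a)) k)
    (hA : Adm 2 (p ^ g)) (hodd : Even (p ^ g - 1)) (hA1 : 1 ≤ A) (hAa : 2 * A ≤ a)
    (hq : p ^ g - 1 = 2 ^ A * u₂) (hu : u₂.Coprime 2)
    (hψ₁ : ∀ x, ψ₁ x ^ p ^ g = ψ₁ x) (hprim : ψ₂ ((1 + 2 ^ (a - 1) : ℕ) : ZMod (2 ^ a)) ≠ 1)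
    (h2k : ((2 : ℕ) : k) ≠ 0)
    {ξ : k} (hξ0 : ξ ≠ 0) (hξ : ξ ^ p ^ g = ξ) (F : Polynomial ℤ) {N T E L P : ℕ} (hT : T.Coprime 2) (hT0 : 0 < T)
    (hM4 : 3 ≤ 2 ^ (a - A)) (hP : 2 ^ (a - A) = 2 * P) (hAP : 2 ^ A ∣ P) (hET : E ∣ T)
    (hS : ∀ b₀ < T, b₀ % E = 1 → ∑ t ∈ range (2 ^ (a - A) * L), ψ₁ ((b₀ + T * t : ℕ) : ZMod N₁) *
      ψ₂ ((b₀ + T * t : ℕ) : ZMod (2 ^ a)) * ξ ^ t *
      Polynomial.aeval (((b₀ + T * t : ℕ) : k) / (N : ℕ)) F = 0)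
    {i j w δ : ℕ} (hj : ¬ 2 ∣ j) (hwi : w + T * j = P * i) (hδ : ¬ 2 ∣ δ) (hδN : N₁ ∣ δ) (hδp : p ∣ δ)
    (hδE : E ∣ δ) (hu1 : (w + T * (2 * j)) % 2 ^ A = 1) (huE : (w + T * (2 * j)) % E = 1)
    (hlt : w + T * (2 * j) + P * δ < T * 2 ^ (a - A)) :
    Phi ψ₁ F N (T * 2 ^ (a - A)) L
      (ψ₂ ((1 + 2 ^ (a - A) : ℕ) : ZMod (2 ^ a)) ^ T * ξ ^ 2 ^ (a - A)) (w + T * (2 * j)) = 0 := by
  have hE1 : E ≠ 0 := by
    rintro rfl
    rw [zero_dvd_iff] at hET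
    omega
  set M₂ := 2 ^ (a - A) with hM₂
  set u := w + T * (2 * j) with hu0
  set ξ₂ := ψ₂ ((1 + M₂ : ℕ) : ZMod (2 ^ a)) with hξ₂
  have h2A : 2 ∣ 2 ^ A := dvd_pow_self 2 (by omega)
  have hw1 : (w + 1) % 2 ^ A = 0 := by
    -- `w + T j = 0` and `w + 2 T j = 1`
    have h1 : w + T * j ≡ 0 [MOD 2 ^ A] := Nat.modEq_zero_iff_dvd.2 (hwi ▸ hAP.mul_right i)
    have h2 : (w + T * j) + T * j ≡ 1 [MOD 2 ^ A] := by
      have : (w + T * j) + T * j = u := by rw [hu0]; ring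
      rw [this, Nat.ModEq, hu1, Nat.mod_eq_of_lt]
      exact Nat.one_lt_pow (by omega) (by norm_num)
    have h3 : T * j ≡ 1 [MOD 2 ^ A] := by
      have := (h1.add_right (T * j)).symm.trans h2
      rwa [zero_add] at this
    exact Nat.mod_eq_zero_of_dvd (Nat.modEq_zero_iff_dvd.1 ((h3.symm.add_left w).trans h1))
  have rel : ∀ w', (w' + T * j) % P = 0 → (w' + T * (2 * j)) % 2 ^ A = 1 → (w' + T * (2 * j)) % E = 1 →
      w' + T * (2 * j) < T * M₂ → (w' + 1) % 2 ^ A = 0 →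
      ψ₂ ((w' + T * (2 * j) : ℕ) : ZMod (2 ^ a)) * ξ ^ (w' / T + 2 * j) *
        Phi ψ₁ F N (T * M₂) L (ξ₂ ^ T * ξ ^ M₂) (w' + T * (2 * j)) +
      ψ₂ (w' : ZMod (2 ^ a)) * ξ ^ (w' / T) *
        Phi ψ₁ F N (T * M₂) L ((ξ₂ ^ (2 ^ A - 1)) ^ T * ξ ^ M₂) w' = 0 := by
    intro w' h1 h2 h3 h4 h5
    have e0 : w' = w' % T + T * (w' / T) := (Nat.mod_add_div w' T).symm
    have e1 : w' + T * (2 * j) = w' % T + T * (w' / T + 2 * j) := by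
      conv_lhs => rw [e0]
      ring
    refine relation ψ₁ ψ₂ hA hodd hA1 hAa hq hu hψ₁ hprim h2k hξ F hT hM4
      (hS (w' % T) (Nat.mod_lt _ hT0) ?_) e1 e0 ?_ ?_ h2 h5 ?_
    · rw [Nat.mod_mod_of_dvd _ hET, ← h3]
      obtain ⟨c, hc⟩ := hET
      rw [hc, mul_assoc, Nat.add_mul_mod_self_left]
    · by_contra hcon
      push Not at hcon
      have : T * M₂ ≤ T * (w' / T + 2 * j) := Nat.mul_le_mul_left _ hcon
      omega
    · by_contra hcon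
      push Not at hcon
      have : T * M₂ ≤ T * (w' / T) := Nat.mul_le_mul_left _ hcon
      omega
    · obtain ⟨c, hc⟩ := Nat.dvd_of_mod_eq_zero h1
      refine ⟨c, ?_⟩
      rw [← hM₂, hP]
      linear_combination 2 * hc
  have h1 := rel w (by rw [hwi, Nat.mul_mod_right]) hu1 huE (by omega) hw1
  have huu : w + P * δ + T * (2 * j) = u + P * δ := by rw [hu0]; ring
  have h2 := rel (w + P * δ) (by
      have : w + P * δ + T * j = P * (i + δ) := by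
        rw [mul_add, ← hwi]
        ring
      rw [this, Nat.mul_mod_right]) (by
      obtain ⟨c, hc⟩ := hAP
      rw [huu, hc, mul_assoc, Nat.add_mul_mod_self_left, hu1]) (by
      obtain ⟨c, hc⟩ := hδE
      rw [huu, hc, mul_left_comm, Nat.add_mul_mod_self_left, huE]) (by
      rw [huu]
      exact hlt) (by
      obtain ⟨c, hc⟩ := hAP
      have : w + P * δ + 1 = w + 1 + 2 ^ A * (c * δ) := by rw [hc]; ring
      rw [this, Nat.add_mul_mod_self_left, hw1])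
  rw [huu] at h2
  -- the shifted values are the same
  have c1 : Phi ψ₁ F N (T * M₂) L (ξ₂ ^ T * ξ ^ M₂) (u + P * δ) =
      Phi ψ₁ F N (T * M₂) L (ξ₂ ^ T * ξ ^ M₂) u := by
    refine Phi_congr (p := p) ψ₁ F N _ L _ ?_ ?_
    · obtain ⟨c, hc⟩ := hδN
      rw [hc, mul_left_comm]
      rw [Nat.ModEq, Nat.add_mul_mod_self_left]
    · obtain ⟨c, hc⟩ := hδp
      rw [hc, mul_left_comm]
      rw [Nat.ModEq, Nat.add_mul_mod_self_left]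
  have c2 : Phi ψ₁ F N (T * M₂) L ((ξ₂ ^ (2 ^ A - 1)) ^ T * ξ ^ M₂) (w + P * δ) =
      Phi ψ₁ F N (T * M₂) L ((ξ₂ ^ (2 ^ A - 1)) ^ T * ξ ^ M₂) w := by
    refine Phi_congr (p := p) ψ₁ F N _ L _ ?_ ?_
    · obtain ⟨c, hc⟩ := hδN
      rw [hc, mul_left_comm]
      rw [Nat.ModEq, Nat.add_mul_mod_self_left]
    · obtain ⟨c, hc⟩ := hδp
      rw [hc, mul_left_comm]
      rw [Nat.ModEq, Nat.add_mul_mod_self_left]
  rw [c1, c2] at h2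
  by_contra hne
  set Φ := Phi ψ₁ F N (T * M₂) L (ξ₂ ^ T * ξ ^ M₂) u with hΦ
  set Φ' := Phi ψ₁ F N (T * M₂) L ((ξ₂ ^ (2 ^ A - 1)) ^ T * ξ ^ M₂) w with hΦ'
  have h3 : (ψ₂ (u : ZMod (2 ^ a)) * ψ₂ ((w + P * δ : ℕ) : ZMod (2 ^ a)) -
      ψ₂ ((u + P * δ : ℕ) : ZMod (2 ^ a)) * ψ₂ (w : ZMod (2 ^ a))) *
      (ξ ^ (w / T + 2 * j) * ξ ^ ((w + P * δ) / T) * Φ) = 0 := by
    rw [pow_add] at h1 h2 ⊢
    linear_combination (ψ₂ ((w + P * δ : ℕ) : ZMod (2 ^ a)) * ξ ^ ((w + P * δ) / T)) * h1 -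
      ψ₂ (w : ZMod (2 ^ a)) * ξ ^ (w / T) * h2
  have h4 : ψ₂ (u : ZMod (2 ^ a)) * ψ₂ ((w + P * δ : ℕ) : ZMod (2 ^ a)) =
      ψ₂ ((u + P * δ : ℕ) : ZMod (2 ^ a)) * ψ₂ (w : ZMod (2 ^ a)) := by
    rcases mul_eq_zero.1 h3 with h4 | h4
    · exact sub_eq_zero.1 h4
    · exact absurd h4 (mul_ne_zero (mul_ne_zero (pow_ne_zero _ hξ0) (pow_ne_zero _ hξ0)) hne)
  -- a power of `ξ₂` is one
  have hP2 : 2 ∣ P := h2A.trans hAP
  have hw2 : ¬ 2 ∣ w := by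
    intro h
    have h5 : 2 ∣ w + 1 := h2A.trans (Nat.dvd_of_mod_eq_zero hw1)
    omega
  have hu2 : ¬ 2 ∣ u + P * δ := by
    intro h
    have h5 : 2 ∣ u := (Nat.dvd_add_left (hP2.mul_right δ)).1 h
    have h6 : 2 ∣ u % 2 ^ A := (Nat.dvd_mod_iff h2A).2 h5
    rw [hu1] at h6
    omega
  have hb : ((u + P * δ) * w * w) % 2 ^ A = 1 := by
    have e1 : u + P * δ ≡ 1 [MOD 2 ^ A] := by
      have h5 : P * δ ≡ 0 [MOD 2 ^ A] := Nat.modEq_zero_iff_dvd.2 (hAP.mul_right δ)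
      have h6 : u ≡ 1 [MOD 2 ^ A] := by
        rw [Nat.ModEq, hu1, Nat.mod_eq_of_lt]
        exact Nat.one_lt_pow (by omega) (by norm_num)
      exact h6.add h5
    have e2 : w * w ≡ 1 [MOD 2 ^ A] := by
      have h5 : w + 1 ≡ 0 [MOD 2 ^ A] := Nat.modEq_zero_iff_dvd.2 (Nat.dvd_of_mod_eq_zero hw1)
      have h6 : w * w + (w + 1) ≡ 1 + (w + 1) [MOD 2 ^ A] := by
        have h7 : w * w + (w + 1) + (w + 1) = (w + 1) * (w + 1) + 1 := by ring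
        have h8 : w * w + (w + 1) + (w + 1) ≡ 1 + (w + 1) + (w + 1) [MOD 2 ^ A] := by
          rw [h7]
          calc (w + 1) * (w + 1) + 1 ≡ 0 * 0 + 1 [MOD 2 ^ A] := (h5.mul h5).add_right 1
            _ = 1 + 0 + 0 := by norm_num
            _ ≡ 1 + (w + 1) + (w + 1) [MOD 2 ^ A] := ((h5.add_left 1).add h5).symm
        exact Nat.ModEq.add_right_cancel' _ h8
      exact Nat.ModEq.add_right_cancel' _ h6
    have e3 : (u + P * δ) * w * w ≡ 1 [MOD 2 ^ A] := by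
      rw [mul_assoc]
      exact (e1.mul e2)
    rw [Nat.ModEq, Nat.mod_eq_of_lt (Nat.one_lt_pow (by omega) (by norm_num))] at e3
    exact e3
  have h5 : ψ₂ (((u + P * δ) * w * w + M₂ * (T * j * δ * w) : ℕ) : ZMod (2 ^ a)) =
      ψ₂ (((u + P * δ) * w * w : ℕ) : ZMod (2 ^ a)) := by
    have e1 : (u + P * δ) * w * w + M₂ * (T * j * δ * w) = u * (w + P * δ) * w := by
      rw [hP, hu0]
      ring
    rw [e1]
    push_cast
    push_cast at h4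
    rw [map_mul, map_mul, map_mul, map_mul]
    rw [h4]
  rw [psi_b ψ₂ hAa _ _ hb] at h5
  have hb0 : ψ₂ (((u + P * δ) * w * w : ℕ) : ZMod (2 ^ a)) ≠ 0 := by
    apply psi_ne_zero Nat.prime_two
    intro h
    rcases (Nat.prime_two.dvd_mul).1 h with h | h
    · rcases (Nat.prime_two.dvd_mul).1 h with h | h
      · exact hu2 h
      · exact hw2 h
    · exact hw2 h
  have h6 : ξ₂ ^ (T * j * δ * w) = 1 := by
    have h7 : ψ₂ (((u + P * δ) * w * w : ℕ) : ZMod (2 ^ a)) * ξ₂ ^ (T * j * δ * w) =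
        ψ₂ (((u + P * δ) * w * w : ℕ) : ZMod (2 ^ a)) * 1 := by
      rw [mul_one]
      exact h5
    exact mul_left_cancel₀ hb0 h7
  have h7 : ξ₂ ^ 2 ^ A = 1 := psi_M_pow ψ₂ hAa
  have h8 : ξ₂ = 1 := by
    have hT2 : ¬ 2 ∣ T := by
      rw [← Nat.Prime.coprime_iff_not_dvd Nat.prime_two]
      exact hT.symm
    have hodd' : (T * j * δ * w).Coprime (2 ^ A) := by
      apply Nat.Coprime.pow_right
      rw [Nat.coprime_comm, Nat.Prime.coprime_iff_not_dvd Nat.prime_two]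
      intro h
      rcases (Nat.prime_two.dvd_mul).1 h with h | h
      · rcases (Nat.prime_two.dvd_mul).1 h with h | h
        · rcases (Nat.prime_two.dvd_mul).1 h with h | h
          · exact hT2 h
          · exact hj h
        · exact hδ h
      · exact hw2 h
    have h9 : orderOf ξ₂ ∣ 1 := by
      rw [← hodd']
      exact Nat.dvd_gcd (orderOf_dvd_of_pow_eq_one h6) (orderOf_dvd_of_pow_eq_one h7)
    exact orderOf_eq_one_iff.1 (Nat.dvd_one.1 h9)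
  apply hprim
  rw [← psi_M_pow' ψ₂ hAa hA1, ← hM₂, ← hξ₂, h8, one_pow]

end

end Pool.Agent.E8helper53.GR
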