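import Pool.Agent.E8helper53.GR.Mix

/-!
# The polynomial argument
-/

set_option autoImplicit false

namespace Pool.Agent.E8helper53.GR

open Finset Polynomial Pool.Agent.Y18.GX

section
variable {k : Type*} [Field k] {p : ℕ} [Fact p.Prime] [CharP k p]

omit [Fact p.Prime] in
lemma D_zero {N₁ L M m : ℕ} (ψ₁ : MulChar (ZMod N₁) k) {ζ : k} (hN₁L : N₁ ∣ L) (hζL : ζ ^ L = 1)
    (hζN : ζ ^ N₁ ≠ 1) (hLk : ((L : ℕ) : k) ≠ 0) (hMk : ((M : ℕ) : k) ≠ 0)
    (F : Polynomial ℤ) (hdeg : F.natDegree ≤ m) (hlead : ((F.coeff m : ℤ) : k) ≠ 0)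
    (hm1 : 1 ≤ m) (hmp : m < p) (κ : ℕ) (U : ℕ → ℕ) (hU : ∀ r < m, U r ≡ κ [MOD N₁])
    (hUp : ∀ r < m, ∀ r' < m, ((U r : ℕ) : k) = ((U r' : ℕ) : k) → r = r')
    (h0 : ∀ r < m, Phi ψ₁ F (M * L) M L ζ (U r) = 0) :
    ∑ t ∈ range L, ψ₁ ((κ + M * t : ℕ) : ZMod N₁) * ζ ^ t * (t : k) = 0 := by
  set N := M * L with hN
  have hNk0 : ((N : ℕ) : k) ≠ 0 := by
    rw [hN]
    push_cast
    exact mul_ne_zero hMk hLk
  set f := F.map (Int.castRingHom k) with hf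
  have hfev : ∀ x : k, Polynomial.aeval x F = f.eval x := fun x => by
    rw [hf, eval_map, aeval_def]
    rfl
  have hfdeg : f.natDegree ≤ m := (natDegree_map_le).trans hdeg
  have hfm : f.coeff m ≠ 0 := by
    rw [hf, coeff_map]
    exact hlead
  set Q : k[X] := ∑ t ∈ range L, C (ψ₁ ((κ + M * t : ℕ) : ZMod N₁) * ζ ^ t) * taylor ((t : k) / L) f
    with hQ
  have hQev : ∀ r, r < m → Q.eval (((U r : ℕ) : k) / N) = 0 := by
    intro r hr
    rw [hQ, eval_finset_sum, ← h0 r hr]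
    unfold Phi
    refine Finset.sum_congr rfl fun t _ => ?_
    have hz : ((U r + M * t : ℕ) : ZMod N₁) = ((κ + M * t : ℕ) : ZMod N₁) := by
      rw [ZMod.natCast_eq_natCast_iff]
      exact (hU r hr).add_right _
    have hx : ((U r : ℕ) : k) / N + (t : k) / L = ((U r + M * t : ℕ) : k) / N := by
      rw [hN]
      push_cast
      field_simp
    rw [eval_mul, eval_C, taylor_eval, hfev, hz, hx]
  have hQdeg : Q.degree < m := by
    rw [degree_lt_iff_coeff_zero]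
    intro i hi
    rcases hi.eq_or_lt with h1 | h1
    · rw [← h1, hQ, finset_sum_coeff]
      simp only [coeff_C_mul, taylor_coeff_top f m hfdeg]
      rw [← Finset.sum_mul, E_zero ψ₁ ζ hN₁L hζL hζN κ, zero_mul]
    · rw [hQ, finset_sum_coeff]
      refine Finset.sum_eq_zero fun t _ => ?_
      rw [coeff_C_mul, coeff_eq_zero_of_natDegree_lt, mul_zero]
      rw [natDegree_taylor]
      omega
  have hQ0 : Q = 0 := by
    refine eq_zero_of_degree_lt_of_eval_index_eq_zero (s := range m) (f := Q)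
      (v := fun r : ℕ => (((U r : ℕ) : k) / (N : k) : k)) ?_ (by rwa [card_range])
      (fun j hj => hQev j (mem_range.1 hj))
    intro i hi j hj hij
    simp only at hij
    rw [div_left_inj' hNk0] at hij
    exact hUp i (mem_range.1 hi) j (mem_range.1 hj) hij
  have h1 : Q.coeff (m - 1) = 0 := by rw [hQ0, coeff_zero]
  rw [hQ, finset_sum_coeff] at h1
  simp only [coeff_C_mul, taylor_coeff_sub f m hm1 hfdeg] at h1
  have h2 : ∑ t ∈ range L, ψ₁ ((κ + M * t : ℕ) : ZMod N₁) * ζ ^ t *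
      (f.coeff (m - 1) + m * f.coeff m * ((t : k) / L)) =
      f.coeff (m - 1) * ∑ t ∈ range L, ψ₁ ((κ + M * t : ℕ) : ZMod N₁) * ζ ^ t +
      (m * f.coeff m / L) * ∑ t ∈ range L, ψ₁ ((κ + M * t : ℕ) : ZMod N₁) * ζ ^ t * (t : k) := by
    rw [Finset.mul_sum, Finset.mul_sum, ← Finset.sum_add_distrib]
    refine Finset.sum_congr rfl fun t _ => ?_
    ring
  rw [h2, E_zero ψ₁ ζ hN₁L hζL hζN κ, mul_zero, zero_add] at h1
  rcases mul_eq_zero.1 h1 with h4 | h4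
  · exfalso
    rw [div_eq_zero_iff] at h4
    rcases h4 with h4 | h4
    · rcases mul_eq_zero.1 h4 with h5 | h5
      · rw [CharP.cast_eq_zero_iff k p] at h5
        have := Nat.le_of_dvd (by omega) h5
        omega
      · exact hfm h5
    · exact hLk h4
  · exact h4

omit [Fact p.Prime] [CharP k p] in
lemma D_contra {N₁ L M : ℕ} (ψ₁ : MulChar (ZMod N₁) k) {ζ : k} (hN₁L : N₁ ∣ L) (hζL : ζ ^ L = 1)
    (hζN : ζ ^ N₁ ≠ 1) (hLk : ((L : ℕ) : k) ≠ 0)
    (h1 : ∑ t ∈ range L, ψ₁ ((1 + M * t : ℕ) : ZMod N₁) * ζ ^ t * (t : k) = 0)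
    (h2 : ∑ t ∈ range L, ψ₁ ((1 + M + M * t : ℕ) : ZMod N₁) * ζ ^ t * (t : k) = 0) : False := by
  have h4 := E_zero (M := M) ψ₁ ζ hN₁L hζL hζN (1 + M)
  have h5 : ∑ t ∈ range (L + 1), ψ₁ ((1 + M * t : ℕ) : ZMod N₁) * ζ ^ t * (t : k) = L := by
    rw [Finset.sum_range_succ, h1, zero_add, hζL]
    have : ((1 + M * L : ℕ) : ZMod N₁) = 1 := by
      obtain ⟨w, hw⟩ := hN₁L
      rw [hw]
      push_cast
      simp
    rw [this, map_one, one_mul, one_mul]
  rw [Finset.sum_range_succ'] at h5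
  have h6 : ∑ t ∈ range L, ψ₁ ((1 + M * (t + 1) : ℕ) : ZMod N₁) * ζ ^ (t + 1) * ((t + 1 : ℕ) : k) =
      ζ * ∑ t ∈ range L, ψ₁ ((1 + M + M * t : ℕ) : ZMod N₁) * ζ ^ t * (t : k) +
      ζ * ∑ t ∈ range L, ψ₁ ((1 + M + M * t : ℕ) : ZMod N₁) * ζ ^ t := by
    rw [Finset.mul_sum, Finset.mul_sum, ← Finset.sum_add_distrib]
    refine Finset.sum_congr rfl fun t _ => ?_
    have : 1 + M * (t + 1) = 1 + M + M * t := by ring
    rw [this]
    push_cast
    ring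
  rw [h6, h2, h4, mul_zero, mul_zero, add_zero, Nat.cast_zero, mul_zero, add_zero] at h5
  exact hLk h5.symm

end

end Pool.Agent.E8helper53.GR
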