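import Pool.Agent.Y18.GX.Small

/-!
# Traces of the values of a character modulo a power of `2` or `3`
-/

set_option autoImplicit false

namespace Pool.Agent.E8helper53.GR

open Finset Pool.Agent.Y18.GX

section
variable {k : Type*} [Field k]

lemma isUnit_of_not_dvd {ℓ K : ℕ} (hℓ : ℓ.Prime) {a : ℕ} (ha : ¬ ℓ ∣ a) : IsUnit (a : ZMod (ℓ ^ K)) :=
  (ZMod.isUnit_iff_coprime a (ℓ ^ K)).2
    (Nat.Coprime.pow_right _ ((Nat.Prime.coprime_iff_not_dvd hℓ).2 ha).symm)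

lemma psi_ne_zero {ℓ K : ℕ} (hℓ : ℓ.Prime) (ψ : MulChar (ZMod (ℓ ^ K)) k) {a : ℕ} (ha : ¬ ℓ ∣ a) :
    ψ (a : ZMod (ℓ ^ K)) ≠ 0 := ((isUnit_of_not_dvd hℓ ha).map ψ).ne_zero

lemma psi_dvd {ℓ K : ℕ} (hℓ : ℓ.Prime) (hK : K ≠ 0) (ψ : MulChar (ZMod (ℓ ^ K)) k) {a : ℕ} (ha : ℓ ∣ a) :
    ψ (a : ZMod (ℓ ^ K)) = 0 := by
  apply ψ.map_nonunit
  intro h
  have h1 := (ZMod.isUnit_iff_coprime a (ℓ ^ K)).1 h
  have h2 := Nat.dvd_gcd ha (dvd_pow_self ℓ hK)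
  rw [h1] at h2
  exact hℓ.one_lt.ne' (Nat.dvd_one.1 h2)

/-- the sum of `(ψ(x) / ψ(c))^(q^j)` -/
theorem trace_class {ℓ n K q u : ℕ} (ψ : MulChar (ZMod (ℓ ^ K)) k) (hA : Adm ℓ q) (hq1 : 1 ≤ q)
    (hodd : Even (q - 1)) (hn1 : 1 ≤ n) (hn : 2 * n ≤ K) (hq : q - 1 = ℓ ^ n * u) (hu : u.Coprime ℓ)
    (hprim : ψ ((1 + ℓ ^ (K - 1) : ℕ) : ZMod (ℓ ^ K)) ≠ 1) {c : ℕ} (hc : ¬ ℓ ∣ c) (x : ℕ) :
    ∑ j ∈ range (ℓ ^ K), (ψ (x : ZMod (ℓ ^ K)) * (ψ (c : ZMod (ℓ ^ K)))⁻¹) ^ q ^ j =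
      if x ≡ c [MOD ℓ ^ (K - n)] ∨ ℓ ^ (K - n) ∣ x + c then
        ((ℓ ^ K : ℕ) : k) * (ψ (x : ZMod (ℓ ^ K)) * (ψ (c : ZMod (ℓ ^ K)))⁻¹) else 0 := by
  have hℓ := hA.prime
  set M := ℓ ^ (K - n) with hM
  have hMn : ℓ ^ n ∣ M := pow_dvd_pow _ (by omega)
  have hccop : c.Coprime (ℓ ^ K) :=
    Nat.Coprime.pow_right _ ((Nat.Prime.coprime_iff_not_dvd hℓ).2 hc).symm
  set β := ψ (c : ZMod (ℓ ^ K)) with hβ
  have hβ0 : β ≠ 0 := psi_ne_zero hℓ ψ hc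
  obtain ⟨b', hb'⟩ : ∃ b' : ℕ, (c : ZMod (ℓ ^ K)) * b' = 1 := by
    have : NeZero (ℓ ^ K) := ⟨pow_ne_zero _ hℓ.ne_zero⟩
    refine ⟨((c : ZMod (ℓ ^ K))⁻¹).val, ?_⟩
    rw [ZMod.natCast_val, ZMod.cast_id', id_eq]
    exact ZMod.coe_mul_inv_eq_one c hccop
  have hβ' : ψ (b' : ZMod (ℓ ^ K)) = β⁻¹ := by
    apply eq_inv_of_mul_eq_one_left
    rw [hβ, ← map_mul, mul_comm, hb', map_one]
  have hb'M : c * b' ≡ 1 [MOD M] := by
    have h1 : c * b' ≡ 1 [MOD ℓ ^ K] := by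
      rw [← ZMod.natCast_eq_natCast_iff]
      push_cast
      exact hb'
    exact h1.of_dvd (pow_dvd_pow _ (by omega))
  have hb'0 : ¬ ℓ ∣ b' := by
    intro h
    have h1 : c * b' ≡ 1 [MOD ℓ] := hb'M.of_dvd ((dvd_pow_self ℓ (by omega)).trans hMn)
    have h2 : c * b' ≡ 0 [MOD ℓ] := (Nat.modEq_zero_iff_dvd).2 (h.mul_left c)
    have h4 := h2.symm.trans h1
    have h5 := (Nat.modEq_iff_dvd' (Nat.zero_le 1)).1 h4
    exact hℓ.one_lt.ne' (Nat.dvd_one.1 h5)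
  by_cases ha : ℓ ∣ x
  · rw [psi_dvd hℓ (by omega) ψ ha]
    have h1 : ∀ j, ((0 : k) * β⁻¹) ^ q ^ j = 0 := fun j => by
      rw [zero_mul, zero_pow]
      exact (Nat.pos_of_ne_zero (pow_ne_zero _ (by omega))).ne'
    rw [Finset.sum_eq_zero fun j _ => h1 j, zero_mul, mul_zero, ite_self]
  · have hz : ψ (x : ZMod (ℓ ^ K)) * β⁻¹ = ψ ((x * b' : ℕ) : ZMod (ℓ ^ K)) := by
      rw [← hβ', ← map_mul]
      push_cast
      rfl
    have hcℓ : ¬ ℓ ∣ x * b' := fun h => by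
      rcases (hℓ.dvd_mul).1 h with h | h
      · exact ha h
      · exact hb'0 h
    have hc0 : x * b' ≠ 0 := fun h => hcℓ (h ▸ dvd_zero _)
    have hz0 : ψ ((x * b' : ℕ) : ZMod (ℓ ^ K)) ≠ 0 := psi_ne_zero hℓ ψ hcℓ
    have hab : x * b' * c ≡ x [MOD M] := by
      calc x * b' * c = x * (c * b') := by ring
        _ ≡ x * 1 [MOD M] := hb'M.mul_left x
        _ = x := mul_one x
    rw [hz]
    split_ifs with hcase
    · refine trace_one _ hq1 (kernel_conv ψ hn hodd hq hc0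
        (Nat.one_le_pow _ _ hℓ.pos) ?_)
      rcases hcase with h1 | h1
      · left
        have h4 : 1 ≡ x * b' [MOD M] := (h1.mul_right b' |>.trans hb'M).symm
        exact (Nat.modEq_iff_dvd' (Nat.pos_of_ne_zero hc0)).1 h4
      · right
        have h2 : x + c ≡ 0 [MOD M] := Nat.modEq_zero_iff_dvd.2 h1
        have h4 : x * b' + c * b' ≡ 0 [MOD M] := by
          have := h2.mul_right b'
          rwa [add_mul, zero_mul] at this
        exact Nat.modEq_zero_iff_dvd.1 ((hb'M.symm.add_left (x * b')).trans h4)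
    · refine trace_zero hA _ hz0 ?_ ?_
      · intro h1
        apply hcase
        rcases kernel ψ hA hn hn1 hprim hq hu
          ((Nat.Prime.coprime_iff_not_dvd hℓ).2 hcℓ).symm h1 with h2 | h2
        · left
          have h4 : 1 ≡ x * b' [MOD M] := (Nat.modEq_iff_dvd' (Nat.pos_of_ne_zero hc0)).2 h2
          have h5 : c ≡ x [MOD M] := by
            have := (h4.mul_right c).trans hab
            rwa [one_mul] at this
          exact h5.symm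
        · right
          have h4 : (x * b' + 1) * c ≡ 0 [MOD M] := Nat.modEq_zero_iff_dvd.2 (h2.mul_right c)
          rw [add_mul, one_mul] at h4
          have h5 : x + c ≡ 0 [MOD M] := (hab.symm.add_right c).trans h4
          exact Nat.modEq_zero_iff_dvd.1 h5
      · rw [← pow_mul, ← map_pow]
        have h1 : ((x * b' : ℕ) : ZMod (ℓ ^ K)) ^ ((q - 1) * ℓ ^ K) = 1 := by
          obtain ⟨U, hU⟩ := isUnit_of_not_dvd (K := K) hℓ hcℓ
          rw [← hU, ← Units.val_pow_eq_pow_val]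
          have h2 := ZMod.pow_totient U
          rw [Nat.totient_prime_pow hℓ (by omega)] at h2
          have h4 : ℓ - 1 ∣ q - 1 := by
            rcases hA with ⟨h5, -⟩ | ⟨h5, -⟩
            · rw [h5]
              exact even_iff_two_dvd.1 hodd
            · rw [h5]
              exact one_dvd _
          obtain ⟨w, hw⟩ := h4
          have h5 : (q - 1) * ℓ ^ K = (ℓ ^ (K - 1) * (ℓ - 1)) * (w * ℓ) := by
            rw [hw]
            have : ℓ ^ K = ℓ ^ (K - 1) * ℓ := by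
              rw [← pow_succ]
              congr 1
              omega
            rw [this]
            ring
          rw [h5, pow_mul, h2, one_pow, Units.val_one]
        rw [h1, map_one]

/-- the values on a class which is `-1` -/
lemma psi_neg {ℓ K n : ℕ} (hℓ : ℓ.Prime) (ψ : MulChar (ZMod (ℓ ^ K)) k) (hn1 : 1 ≤ n) (hn : 2 * n ≤ K)
    (h3 : 2 ≤ ℓ ^ n) {w : ℕ}
    (hw : (w + 1) % ℓ ^ n = 0) (t : ℕ) :
    ψ ((w + ℓ ^ (K - n) * t : ℕ) : ZMod (ℓ ^ K)) =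
      ψ (w : ZMod (ℓ ^ K)) * (ψ ((1 + ℓ ^ (K - n) : ℕ) : ZMod (ℓ ^ K)) ^ (ℓ ^ n - 1)) ^ t := by
  have hwℓ : ¬ ℓ ∣ w := by
    intro h
    have h1 : ℓ ∣ w + 1 := (dvd_pow_self ℓ (by omega)).trans (Nat.dvd_of_mod_eq_zero hw)
    have h2 := (Nat.dvd_add_right h).1 h1
    exact hℓ.one_lt.ne' (Nat.dvd_one.1 h2)
  have h0 := psi_ne_zero (K := K) hℓ ψ hwℓ
  apply mul_left_cancel₀ h0
  rw [← map_mul]
  obtain ⟨y, hy⟩ := Nat.dvd_of_mod_eq_zero hw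
  have hy0 : 1 ≤ y := by
    rcases Nat.eq_zero_or_pos y with h | h
    · subst h
      omega
    · exact h
  -- the square of `w`
  have hsq : (w * w) % ℓ ^ n = 1 := by
    have h1 : w * w + 2 * (w + 1) = (w + 1) * (w + 1) + 1 := by ring
    have h2 : (w * w + 2 * (w + 1)) % ℓ ^ n = (w * w) % ℓ ^ n := by
      rw [hy, mul_left_comm, Nat.add_mul_mod_self_left]
    rw [← h2, h1, hy, mul_assoc, Nat.add_comm, Nat.add_mul_mod_self_left]
    exact Nat.mod_eq_of_lt (by omega)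
  have e1 : (w : ZMod (ℓ ^ K)) * ((w + ℓ ^ (K - n) * t : ℕ) : ZMod (ℓ ^ K)) =
      ((w * w + ℓ ^ (K - n) * (w * t) : ℕ) : ZMod (ℓ ^ K)) := by
    push_cast
    ring
  rw [e1, psi_b ψ hn (w * w) (w * t) hsq]
  have hξ1 := psi_M_pow ψ hn
  set ξ := ψ ((1 + ℓ ^ (K - n) : ℕ) : ZMod (ℓ ^ K)) with hξ
  have e2 : ξ ^ w = ξ ^ (ℓ ^ n - 1) := by
    have h1 : w = ℓ ^ n * (y - 1) + (ℓ ^ n - 1) := by
      obtain ⟨z, rfl⟩ : ∃ z, y = z + 1 := ⟨y - 1, by omega⟩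
      rw [Nat.add_sub_cancel]
      rw [mul_add, mul_one] at hy
      omega
    rw [h1, pow_add, pow_mul, hξ1, one_pow, one_mul]
  rw [pow_mul, e2]
  push_cast
  rw [map_mul]
  ring

end

end Pool.Agent.E8helper53.GR
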